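import Mathlib

/-!
# A martingale edge colouring process

Real analysis of the process behind the online partial edge colouring algorithm. The state holds
for every vertex `w` and every colour `c` a number `X w c`, which is `0` as soon as an edge at `w`
has got the colour `c`, and otherwise is the inverse of the product of the factors `1 - p` over all
earlier edges at `w`, where `p` is the probability that this edge gets the colour `c`.
-/

set_option autoImplicit false
set_option linter.unusedSectionVars false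
set_option linter.unusedVariables false

open Finset

namespace Pool.Agent.T6.H67.EdgeCol

variable {V : Type} [Fintype V] [DecidableEq V] {Δ : ℕ}

/-- The state of the process; `S` is only used in the analysis. -/
structure St (V : Type) (Δ : ℕ) where
  X : V → Fin Δ → ℝ
  S : V → Fin Δ → ℝ

/-- The initial state. -/
def init (V : Type) (Δ : ℕ) : St V Δ := ⟨fun _ _ => 1, fun _ _ => 0⟩

/-- The intended probability of the colour `c` for the edge `e`. -/
noncomputable def raw (ε : ℝ) (s : St V Δ) (e : Sym2 V) (c : Fin Δ) : ℝ :=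
  Sym2.lift ⟨fun u v => if (0 ≤ s.X u c ∧ s.X u c ≤ 2 / ε) ∧ (0 ≤ s.X v c ∧ s.X v c ≤ 2 / ε) then
    (1 - ε) / Δ * (s.X u c * s.X v c) else 0, fun u v =>
      if_congr and_comm (by rw [mul_comm (s.X u c)]) rfl⟩ e

/-- The probability of the colour `c` for the edge `e`. -/
noncomputable def pr (ε : ℝ) (s : St V Δ) (e : Sym2 V) (c : Fin Δ) : ℝ :=
  if ∑ c', raw ε s e c' ≤ 1 then raw ε s e c else 0

/-- The probabilities of the decisions for the edge `e`. -/
noncomputable def wt (ε : ℝ) (s : St V Δ) (e : Sym2 V) : Option (Fin Δ) → ℝ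
  | none => 1 - ∑ c, pr ε s e c
  | some c => pr ε s e c

/-- The new state after the decision `k` for the edge `e`. -/
noncomputable def upd (ε : ℝ) (s : St V Δ) (e : Sym2 V) (k : Option (Fin Δ)) : St V Δ where
  X w c := if w ∈ e then (if k = some c then 0 else s.X w c / (1 - pr ε s e c)) else s.X w c
  S w c := s.S w c + (∑ v, if e = s(w, v) then s.X v c else 0) / Δ

/-- The expectation of `F` after the edges `es`, starting from the state `s`. -/
noncomputable def Ex (ε : ℝ) : List (Sym2 V) → (St V Δ → ℝ) → St V Δ → ℝ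
  | [], F, s => F s
  | e :: es, F, s => ∑ k, wt ε s e k * Ex ε es F (upd ε s e k)

section basic

variable {ε : ℝ}

theorem raw_mk (s : St V Δ) (u v : V) (c : Fin Δ) : raw ε s s(u, v) c =
    if (0 ≤ s.X u c ∧ s.X u c ≤ 2 / ε) ∧ (0 ≤ s.X v c ∧ s.X v c ≤ 2 / ε) then
      (1 - ε) / Δ * (s.X u c * s.X v c) else 0 := rfl

theorem raw_nonneg (hε1 : ε ≤ 1) (s : St V Δ) (e : Sym2 V) (c : Fin Δ) : 0 ≤ raw ε s e c := by
  induction e using Sym2.ind with
  | _ u v =>
    rw [raw_mk]
    split_ifs with h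
    · have h1 : 0 ≤ (1 - ε) / Δ := div_nonneg (by linarith) (Nat.cast_nonneg _)
      exact mul_nonneg h1 (mul_nonneg h.1.1 h.2.1)
    · exact le_refl _

theorem raw_le (hε : 0 < ε) (hε1 : ε ≤ 1) (s : St V Δ) (e : Sym2 V) (c : Fin Δ) :
    raw ε s e c ≤ (2 / ε) ^ 2 / Δ := by
  have hB : 0 ≤ 2 / ε := by positivity
  have hΔ : (0 : ℝ) ≤ Δ := Nat.cast_nonneg _
  induction e using Sym2.ind with
  | _ u v =>
    rw [raw_mk]
    split_ifs with h
    · have h1 : s.X u c * s.X v c ≤ (2 / ε) ^ 2 := by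
        rw [pow_two]; exact mul_le_mul h.1.2 h.2.2 h.2.1 hB
      have h2 : 0 ≤ s.X u c * s.X v c := mul_nonneg h.1.1 h.2.1
      calc (1 - ε) / Δ * (s.X u c * s.X v c) ≤ 1 / Δ * (s.X u c * s.X v c) :=
            mul_le_mul_of_nonneg_right (div_le_div_of_nonneg_right (by linarith) hΔ) h2
        _ ≤ 1 / Δ * (2 / ε) ^ 2 := mul_le_mul_of_nonneg_left h1 (by positivity)
        _ = (2 / ε) ^ 2 / Δ := by ring
    · positivity

theorem pr_nonneg (hε1 : ε ≤ 1) (s : St V Δ) (e : Sym2 V) (c : Fin Δ) : 0 ≤ pr ε s e c := by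
  unfold pr; split_ifs
  · exact raw_nonneg hε1 s e c
  · exact le_refl _

theorem pr_le_raw (hε1 : ε ≤ 1) (s : St V Δ) (e : Sym2 V) (c : Fin Δ) :
    pr ε s e c ≤ raw ε s e c := by
  unfold pr; split_ifs
  · exact le_refl _
  · exact raw_nonneg hε1 s e c

theorem pr_le_half (hε : 0 < ε) (hε1 : ε ≤ 1) (hΔ : 8 / ε ^ 2 ≤ Δ) (s : St V Δ) (e : Sym2 V)
    (c : Fin Δ) : pr ε s e c ≤ 1 / 2 := by
  have hΔ0 : (0 : ℝ) < Δ := lt_of_lt_of_le (by positivity) hΔ
  refine (pr_le_raw hε1 s e c).trans ((raw_le hε hε1 s e c).trans ?_)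
  rw [div_le_iff₀ hΔ0]
  have : (2 / ε) ^ 2 = 8 / ε ^ 2 * (1 / 2) := by ring
  rw [this]
  linarith

theorem sum_pr_le (s : St V Δ) (e : Sym2 V) : ∑ c, pr ε s e c ≤ 1 := by
  unfold pr
  by_cases h : ∑ c', raw ε s e c' ≤ 1
  · simp only [h, if_true]
  · simp only [h, if_false, sum_const_zero]; exact zero_le_one

theorem wt_nonneg (hε1 : ε ≤ 1) (s : St V Δ) (e : Sym2 V) (k : Option (Fin Δ)) :
    0 ≤ wt ε s e k := by
  cases k with
  | none => exact sub_nonneg.2 (sum_pr_le s e)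
  | some c => exact pr_nonneg hε1 s e c

theorem sum_wt (s : St V Δ) (e : Sym2 V) : ∑ k, wt ε s e k = 1 := by
  rw [Fintype.sum_option]
  simp [wt]

/-- A weighted sum over the decisions. -/
theorem sum_wt_mul (s : St V Δ) (e : Sym2 V) (F : Option (Fin Δ) → ℝ) :
    ∑ k, wt ε s e k * F k = (1 - ∑ c, pr ε s e c) * F none + ∑ c, pr ε s e c * F (some c) := by
  rw [Fintype.sum_option]
  rfl

/-- The inequality behind all second moments. -/
theorem second_moment (s : St V Δ) (e : Sym2 V) (hw : ∀ k, 0 ≤ wt ε s e k)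
    (b : Option (Fin Δ) → ℝ) (z : ℝ) :
    ∑ k, wt ε s e k * (z + (∑ k', wt ε s e k' * b k') - b k) ^ 2 ≤
      z ^ 2 + ∑ k, wt ε s e k * b k ^ 2 := by
  set m := ∑ k', wt ε s e k' * b k' with hm
  have h1 : ∑ k, wt ε s e k * (z + m - b k) ^ 2 =
      (z + m) ^ 2 * ∑ k, wt ε s e k - 2 * (z + m) * ∑ k, wt ε s e k * b k +
        ∑ k, wt ε s e k * b k ^ 2 := by
    rw [mul_sum, mul_sum, ← sum_sub_distrib, ← sum_add_distrib]
    refine sum_congr rfl fun k _ => ?_
    ring
  rw [h1, sum_wt, ← hm]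
  nlinarith [sq_nonneg m]

end basic

/-! ### The invariants -/

/-- The invariants of the process. -/
structure Inv (ε : ℝ) (s : St V Δ) : Prop where
  nonneg : ∀ w c, 0 ≤ s.X w c
  bound : ∀ w c, s.X w c ≤ 4 / ε
  key : ∀ w c, s.X w c * (1 - (1 - ε) * s.S w c) ≤ 1

section inv

variable {ε : ℝ}

theorem inv_init (hε : 0 < ε) (hε1 : ε ≤ 1) : Inv ε (init V Δ) := by
  refine ⟨fun w c => zero_le_one, fun w c => ?_, fun w c => ?_⟩
  · show (1 : ℝ) ≤ 4 / ε
    rw [le_div_iff₀ hε]; linarith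
  · show (1 : ℝ) * (1 - (1 - ε) * 0) ≤ 1
    simp

theorem sum_other {s : St V Δ} {u v : V} (huv : u ≠ v) (c : Fin Δ) :
    (∑ x, if s(u, v) = s(u, x) then s.X x c else 0) = s.X v c := by
  rw [sum_eq_single v]
  · simp
  · intro x _ hx
    rw [if_neg]
    intro h
    rw [Sym2.eq_iff] at h
    rcases h with ⟨_, h⟩ | ⟨h, h'⟩
    · exact hx h.symm
    · exact huv h'.symm
  · simp

theorem sum_other' {s : St V Δ} {e : Sym2 V} {w : V} (h : w ∉ e) (c : Fin Δ) :
    (∑ x, if e = s(w, x) then s.X x c else 0) = 0 := by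
  refine sum_eq_zero fun x _ => ?_
  rw [if_neg]
  rintro rfl
  exact h (Sym2.mem_mk_left _ _)

theorem inv_upd (hε : 0 < ε) (hε1 : ε ≤ 1) (hΔ : 8 / ε ^ 2 ≤ Δ) {s : St V Δ} (hs : Inv ε s)
    {e : Sym2 V} (he : ¬ e.IsDiag) (k : Option (Fin Δ)) : Inv ε (upd ε s e k) := by
  have hΔ0 : (0 : ℝ) < Δ := lt_of_lt_of_le (by positivity) hΔ
  refine ⟨fun w c => ?_, fun w c => ?_, fun w c => ?_⟩
  · show 0 ≤ if w ∈ e then (if k = some c then 0 else s.X w c / (1 - pr ε s e c)) else s.X w c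
    have := pr_le_half hε hε1 hΔ s e c
    split_ifs
    · exact le_refl _
    · exact div_nonneg (hs.nonneg w c) (by linarith)
    · exact hs.nonneg w c
  · show (if w ∈ e then (if k = some c then 0 else s.X w c / (1 - pr ε s e c)) else s.X w c) ≤ 4 / ε
    have hp := pr_le_half hε hε1 hΔ s e c
    have hp0 := pr_nonneg hε1 s e c
    split_ifs with h1 h2
    · positivity
    · rcases hp0.eq_or_lt with h0 | h0
      · rw [← h0, sub_zero, div_one]; exact hs.bound w c
      · -- then the value is at most `2 / ε`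
        have hraw : 0 < raw ε s e c := lt_of_lt_of_le h0 (pr_le_raw hε1 s e c)
        have hXw : s.X w c ≤ 2 / ε := by
          obtain ⟨v, rfl⟩ := h1
          rw [raw_mk] at hraw
          split_ifs at hraw with h
          · exact h.1.2
          · exact absurd hraw (lt_irrefl _)
        rw [div_le_iff₀ (by linarith)]
        calc s.X w c ≤ 2 / ε := hXw
          _ = 4 / ε * (1 / 2) := by ring
          _ ≤ 4 / ε * (1 - pr ε s e c) :=
            mul_le_mul_of_nonneg_left (by linarith) (by positivity)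
    · exact hs.bound w c
  · show (if w ∈ e then (if k = some c then 0 else s.X w c / (1 - pr ε s e c)) else s.X w c) *
      (1 - (1 - ε) * (s.S w c + (∑ v, if e = s(w, v) then s.X v c else 0) / Δ)) ≤ 1
    have hp := pr_le_half hε hε1 hΔ s e c
    have hp0 := pr_nonneg hε1 s e c
    split_ifs with h1 h2
    · rw [zero_mul]; exact zero_le_one
    · obtain ⟨v, rfl⟩ := h1
      have hwv : w ≠ v := by
        intro h; exact he (by rw [h]; exact Sym2.mk_isDiag_iff.2 rfl)
      rw [sum_other hwv]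
      have h3 : pr ε s s(w, v) c ≤ (1 - ε) / Δ * (s.X w c * s.X v c) := by
        refine (pr_le_raw hε1 s _ c).trans ?_
        rw [raw_mk]
        split_ifs with h
        · exact le_refl _
        · exact mul_nonneg (div_nonneg (by linarith) hΔ0.le)
            (mul_nonneg (hs.nonneg w c) (hs.nonneg v c))
      rw [div_mul_eq_mul_div, div_le_one (by linarith)]
      have h4 := hs.key w c
      have h5 : s.X w c * (1 - (1 - ε) * (s.S w c + s.X v c / Δ)) =
          s.X w c * (1 - (1 - ε) * s.S w c) - (1 - ε) / Δ * (s.X w c * s.X v c) := by ring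
      rw [h5]
      linarith
    · rw [sum_other' h1, zero_div, add_zero]
      exact hs.key w c

end inv

/-! ### Expectations -/

section expect

variable {ε : ℝ}

theorem Ex_append (es fs : List (Sym2 V)) (F : St V Δ → ℝ) (s : St V Δ) :
    Ex ε (es ++ fs) F s = Ex ε es (Ex ε fs F) s := by
  induction es generalizing s with
  | nil => rfl
  | cons e es ih =>
    show ∑ k, wt ε s e k * Ex ε (es ++ fs) F (upd ε s e k) = _
    simp_rw [ih]
    rfl

theorem Ex_mono (hε : 0 < ε) (hε1 : ε ≤ 1) (hΔ : 8 / ε ^ 2 ≤ Δ) {es : List (Sym2 V)}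
    (hes : ∀ e ∈ es, ¬ e.IsDiag) {F G : St V Δ → ℝ} (h : ∀ s, Inv ε s → F s ≤ G s)
    {s : St V Δ} (hs : Inv ε s) : Ex ε es F s ≤ Ex ε es G s := by
  induction es generalizing s with
  | nil => exact h s hs
  | cons e es ih =>
    refine sum_le_sum fun k _ => mul_le_mul_of_nonneg_left ?_ (wt_nonneg hε1 s e k)
    exact ih (fun e' he' => hes e' (List.mem_cons_of_mem _ he'))
      (inv_upd hε hε1 hΔ hs (hes e List.mem_cons_self) k)

theorem Ex_const (es : List (Sym2 V)) (a : ℝ) (s : St V Δ) : Ex ε es (fun _ => a) s = a := by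
  induction es generalizing s with
  | nil => rfl
  | cons e es ih =>
    show ∑ k, wt ε s e k * Ex ε es (fun _ => a) (upd ε s e k) = a
    simp_rw [ih, ← sum_mul, sum_wt, one_mul]

theorem Ex_add (es : List (Sym2 V)) (F G : St V Δ → ℝ) (s : St V Δ) :
    Ex ε es (fun s => F s + G s) s = Ex ε es F s + Ex ε es G s := by
  induction es generalizing s with
  | nil => rfl
  | cons e es ih =>
    show ∑ k, wt ε s e k * Ex ε es (fun s => F s + G s) (upd ε s e k) = _
    simp_rw [ih, mul_add, sum_add_distrib]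
    rfl

theorem Ex_mul (es : List (Sym2 V)) (a : ℝ) (F : St V Δ → ℝ) (s : St V Δ) :
    Ex ε es (fun s => a * F s) s = a * Ex ε es F s := by
  induction es generalizing s with
  | nil => rfl
  | cons e es ih =>
    show ∑ k, wt ε s e k * Ex ε es (fun s => a * F s) (upd ε s e k) = _
    simp_rw [ih]
    show _ = a * ∑ k, wt ε s e k * Ex ε es F (upd ε s e k)
    rw [mul_sum]
    exact sum_congr rfl fun k _ => by ring

theorem Ex_sum {ι : Type} (t : Finset ι) (es : List (Sym2 V)) (F : ι → St V Δ → ℝ) (s : St V Δ) :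
    Ex ε es (fun s => ∑ i ∈ t, F i s) s = ∑ i ∈ t, Ex ε es (F i) s := by
  classical
  induction t using Finset.induction_on with
  | empty => simp only [sum_empty]; exact Ex_const es 0 s
  | insert a t ha ih => simp only [sum_insert ha]; rw [Ex_add, ih]

end expect


/-! ### The sum of the intended probabilities -/

section first

variable {ε : ℝ}

/-- The normalised sum of the intended probabilities for the edge `uv`. -/
noncomputable def Afun (u v : V) (s : St V Δ) : ℝ := (∑ c, s.X u c * s.X v c) / Δ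

/-- The values of the deviations. -/
noncomputable def bb (ε : ℝ) (s : St V Δ) (e : Sym2 V) (a : Fin Δ → ℝ) : Option (Fin Δ) → ℝ
  | none => 0
  | some c => a c / (1 - pr ε s e c)

theorem sum_bb (s : St V Δ) (e : Sym2 V) (a : Fin Δ → ℝ) :
    ∑ k, wt ε s e k * bb ε s e a k = ∑ c, pr ε s e c * (a c / (1 - pr ε s e c)) := by
  rw [sum_wt_mul]
  simp [bb]

theorem sum_xi (s : St V Δ) (e : Sym2 V) (hp : ∀ c, pr ε s e c ≤ 1 / 2) (a : Fin Δ → ℝ)
    (k : Option (Fin Δ)) :
    (∑ c, if k = some c then 0 else a c / (1 - pr ε s e c)) =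
      (∑ c, a c) + (∑ k', wt ε s e k' * bb ε s e a k') - bb ε s e a k := by
  rw [sum_bb, ← sum_add_distrib]
  have h1 : ∀ c, a c + pr ε s e c * (a c / (1 - pr ε s e c)) = a c / (1 - pr ε s e c) := by
    intro c
    have : 1 - pr ε s e c ≠ 0 := by have := hp c; intro h; linarith
    field_simp
    ring
  simp_rw [h1]
  cases k with
  | none => simp [bb]
  | some c0 =>
    rw [eq_sub_iff_add_eq]
    show _ + a c0 / (1 - pr ε s e c0) = _
    rw [← sum_erase_add _ _ (mem_univ c0), ← sum_erase_add (f := fun c => a c / (1 - pr ε s e c)) _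
      (mem_univ c0)]
    simp only [if_true, add_zero]
    congr 1
    refine sum_congr rfl fun c hc => ?_
    rw [if_neg]
    intro h
    exact (mem_erase.1 hc).1 (Option.some.inj h).symm

theorem Afun_comm (u v : V) (s : St V Δ) : Afun u v s = Afun v u s := by
  unfold Afun; simp_rw [mul_comm]

theorem Afun_upd_left {s : St V Δ} {e : Sym2 V} {u v : V} (hu : u ∈ e) (hv : v ∉ e)
    (hp : ∀ c, pr ε s e c ≤ 1 / 2) (k : Option (Fin Δ)) :
    Afun u v (upd ε s e k) = Afun u v s +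
      (∑ k', wt ε s e k' * bb ε s e (fun c => s.X u c * s.X v c / Δ) k') -
        bb ε s e (fun c => s.X u c * s.X v c / Δ) k := by
  have h := sum_xi s e hp (fun c => s.X u c * s.X v c / Δ) k
  unfold Afun
  rw [sum_div (s := univ) (f := fun c => s.X u c * s.X v c), ← h, sum_div]
  refine sum_congr rfl fun c _ => ?_
  show (if u ∈ e then (if k = some c then 0 else s.X u c / (1 - pr ε s e c)) else s.X u c) *
    (if v ∈ e then (if k = some c then 0 else s.X v c / (1 - pr ε s e c)) else s.X v c) / Δ = _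
  rw [if_pos hu, if_neg hv]
  split_ifs
  · simp
  · ring

theorem pr_pos_imp (hε1 : ε ≤ 1) {s : St V Δ} {e : Sym2 V} {c : Fin Δ} (h : pr ε s e c ≠ 0) {w : V}
    (hw : w ∈ e) : 0 ≤ s.X w c ∧ s.X w c ≤ 2 / ε := by
  have h1 : raw ε s e c ≠ 0 := by
    intro h0
    exact h (le_antisymm (h0 ▸ pr_le_raw hε1 s e c) (pr_nonneg hε1 s e c))
  obtain ⟨v, rfl⟩ := hw
  rw [raw_mk] at h1
  split_ifs at h1 with h2
  · exact h2.1
  · exact absurd rfl h1

/-- One step of the second moment of `Afun`. -/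
theorem Afun_step_left (hε : 0 < ε) (hε1 : ε ≤ 1) (hΔ : 8 / ε ^ 2 ≤ Δ) {s : St V Δ}
    (hs : Inv ε s) {e : Sym2 V} {u v : V} (hu : u ∈ e) (hv : v ∉ e) (y : ℝ) :
    ∑ k, wt ε s e k * (Afun u v (upd ε s e k) - y) ^ 2 ≤
      (Afun u v s - y) ^ 2 + 256 / (ε ^ 4 * Δ ^ 2) := by
  have hΔ0 : (0 : ℝ) < Δ := lt_of_lt_of_le (by positivity) hΔ
  have hp := pr_le_half hε hε1 hΔ s e
  have hp0 := pr_nonneg hε1 s e
  set a : Fin Δ → ℝ := fun c => s.X u c * s.X v c / Δ with ha
  have h1 := second_moment s e (wt_nonneg hε1 s e) (bb ε s e a) (Afun u v s - y)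
  have h2 : ∑ k, wt ε s e k * (Afun u v (upd ε s e k) - y) ^ 2 =
      ∑ k, wt ε s e k * (Afun u v s - y + (∑ k', wt ε s e k' * bb ε s e a k') -
        bb ε s e a k) ^ 2 := by
    refine sum_congr rfl fun k _ => ?_
    rw [Afun_upd_left hu hv hp]
    ring
  rw [h2]
  refine h1.trans (add_le_add (le_refl _) ?_)
  rw [sum_wt_mul]
  have h3 : ∀ c, pr ε s e c * bb ε s e a (some c) ^ 2 ≤ pr ε s e c * (256 / (ε ^ 4 * Δ ^ 2)) := by
    intro c
    rcases (hp0 c).eq_or_lt with h0 | h0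
    · rw [← h0]; simp
    · refine mul_le_mul_of_nonneg_left ?_ (hp0 c)
      have hX := pr_pos_imp hε1 h0.ne' hu
      have hX2 := hs.bound v c
      have hX3 := hs.nonneg v c
      have hle : a c / (1 - pr ε s e c) ≤ 16 / (ε ^ 2 * Δ) := by
        rw [div_le_iff₀ (by linarith [hp c])]
        have h4 : s.X u c * s.X v c ≤ 2 / ε * (4 / ε) :=
          mul_le_mul hX.2 hX2 hX3 (by positivity)
        calc a c ≤ 2 / ε * (4 / ε) / Δ := div_le_div_of_nonneg_right h4 hΔ0.le
          _ = 16 / (ε ^ 2 * Δ) * (1 / 2) := by field_simp; norm_num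
          _ ≤ 16 / (ε ^ 2 * Δ) * (1 - pr ε s e c) :=
            mul_le_mul_of_nonneg_left (by linarith [hp c]) (by positivity)
      have h0le : 0 ≤ a c / (1 - pr ε s e c) :=
        div_nonneg (div_nonneg (mul_nonneg hX.1 hX3) hΔ0.le) (by linarith [hp c])
      calc bb ε s e a (some c) ^ 2 = (a c / (1 - pr ε s e c)) ^ 2 := rfl
        _ ≤ (16 / (ε ^ 2 * Δ)) ^ 2 := pow_le_pow_left₀ h0le hle 2
        _ = 256 / (ε ^ 4 * Δ ^ 2) := by ring
  have h5 : ∑ c, pr ε s e c * bb ε s e a (some c) ^ 2 ≤ 256 / (ε ^ 4 * Δ ^ 2) := by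
    calc ∑ c, pr ε s e c * bb ε s e a (some c) ^ 2
        ≤ ∑ c, pr ε s e c * (256 / (ε ^ 4 * Δ ^ 2)) := sum_le_sum fun c _ => h3 c
      _ = (∑ c, pr ε s e c) * (256 / (ε ^ 4 * Δ ^ 2)) := by rw [sum_mul]
      _ ≤ 1 * (256 / (ε ^ 4 * Δ ^ 2)) :=
        mul_le_mul_of_nonneg_right (sum_pr_le s e) (by positivity)
      _ = _ := one_mul _
  have h6 : (1 - ∑ c, pr ε s e c) * bb ε s e a none ^ 2 = 0 := by simp [bb]
  rw [h6, zero_add]
  exact h5

theorem Afun_mean_left {s : St V Δ} {e : Sym2 V} {u v : V} (hu : u ∈ e) (hv : v ∉ e)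
    (hp : ∀ c, pr ε s e c ≤ 1 / 2) :
    ∑ k, wt ε s e k * Afun u v (upd ε s e k) = Afun u v s := by
  simp_rw [Afun_upd_left hu hv hp]
  set m := ∑ k', wt ε s e k' * bb ε s e (fun c => s.X u c * s.X v c / Δ) k' with hm
  have : ∀ k, wt ε s e k * (Afun u v s + m - bb ε s e (fun c => s.X u c * s.X v c / Δ) k) =
      wt ε s e k * (Afun u v s + m) - wt ε s e k * bb ε s e (fun c => s.X u c * s.X v c / Δ) k :=
    fun k => by ring
  simp_rw [this]
  rw [sum_sub_distrib, ← sum_mul, sum_wt, ← hm]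
  ring

theorem Afun_upd_none {s : St V Δ} {e : Sym2 V} {u v : V} (hu : u ∉ e) (hv : v ∉ e)
    (k : Option (Fin Δ)) : Afun u v (upd ε s e k) = Afun u v s := by
  unfold Afun
  congr 1
  refine sum_congr rfl fun c _ => ?_
  show (if u ∈ e then (if k = some c then 0 else s.X u c / (1 - pr ε s e c)) else s.X u c) *
    (if v ∈ e then (if k = some c then 0 else s.X v c / (1 - pr ε s e c)) else s.X v c) = _
  rw [if_neg hu, if_neg hv]

/-- The number of edges of the list at the vertex `w`. -/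
def dg (es : List (Sym2 V)) (w : V) : ℕ := es.countP (fun e => w ∈ e)

theorem dg_cons (e : Sym2 V) (es : List (Sym2 V)) (w : V) :
    dg (e :: es) w = dg es w + if w ∈ e then 1 else 0 := by
  unfold dg
  rw [List.countP_cons]
  simp

theorem Ex_Afun_sq (hε : 0 < ε) (hε1 : ε ≤ 1) (hΔ : 8 / ε ^ 2 ≤ Δ) {es : List (Sym2 V)}
    (hes : ∀ e ∈ es, ¬ e.IsDiag) {u v : V} (huv : u ≠ v) (hmem : s(u, v) ∉ es) {s : St V Δ}
    (hs : Inv ε s) (y : ℝ) :
    Ex ε es (fun s => (Afun u v s - y) ^ 2) s ≤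
      (Afun u v s - y) ^ 2 + (dg es u + dg es v) * (256 / (ε ^ 4 * Δ ^ 2)) := by
  have hΔ0 : (0 : ℝ) < Δ := lt_of_lt_of_le (by positivity) hΔ
  induction es generalizing s with
  | nil => simp [Ex, dg]
  | cons e es ih =>
    have hee : ¬ e.IsDiag := hes e List.mem_cons_self
    have hes' : ∀ e' ∈ es, ¬ e'.IsDiag := fun e' he' => hes e' (List.mem_cons_of_mem _ he')
    have hmem' : s(u, v) ∉ es := fun h => hmem (List.mem_cons_of_mem _ h)
    have hne : e ≠ s(u, v) := by
      rintro rfl; exact hmem List.mem_cons_self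
    have h1 : Ex ε (e :: es) (fun s => (Afun u v s - y) ^ 2) s ≤
        ∑ k, wt ε s e k * ((Afun u v (upd ε s e k) - y) ^ 2 +
          (dg es u + dg es v) * (256 / (ε ^ 4 * Δ ^ 2))) :=
      sum_le_sum fun k _ => mul_le_mul_of_nonneg_left
        (ih hes' hmem' (inv_upd hε hε1 hΔ hs hee k)) (wt_nonneg hε1 s e k)
    refine h1.trans ?_
    simp_rw [mul_add]
    rw [sum_add_distrib, ← sum_mul, sum_wt, one_mul, dg_cons, dg_cons]
    have hp := pr_le_half hε hε1 hΔ s e
    have hpos : 0 < 256 / (ε ^ 4 * (Δ : ℝ) ^ 2) := by positivity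
    by_cases hu : u ∈ e
    · by_cases hv : v ∈ e
      · exact absurd ((Sym2.mem_and_mem_iff huv).1 ⟨hu, hv⟩) hne
      · have h2 := Afun_step_left hε hε1 hΔ hs hu hv y
        rw [if_pos hu, if_neg hv]
        push_cast
        linarith
    · by_cases hv : v ∈ e
      · have h2 := Afun_step_left hε hε1 hΔ hs hv hu y
        simp_rw [Afun_comm v u] at h2
        rw [if_neg hu, if_pos hv]
        push_cast
        linarith
      · simp_rw [Afun_upd_none hu hv]
        rw [← sum_mul, sum_wt, if_neg hu, if_neg hv]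
        push_cast
        linarith

theorem Ex_Afun (hε : 0 < ε) (hε1 : ε ≤ 1) (hΔ : 8 / ε ^ 2 ≤ Δ) {es : List (Sym2 V)}
    {u v : V} (huv : u ≠ v) (hmem : s(u, v) ∉ es) (s : St V Δ) :
    Ex ε es (Afun u v) s = Afun u v s := by
  induction es generalizing s with
  | nil => rfl
  | cons e es ih =>
    have hmem' : s(u, v) ∉ es := fun h => hmem (List.mem_cons_of_mem _ h)
    have hne : e ≠ s(u, v) := by
      rintro rfl; exact hmem List.mem_cons_self
    show ∑ k, wt ε s e k * Ex ε es (Afun u v) (upd ε s e k) = _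
    simp_rw [ih hmem']
    have hp := pr_le_half hε hε1 hΔ s e
    by_cases hu : u ∈ e
    · by_cases hv : v ∈ e
      · exact absurd ((Sym2.mem_and_mem_iff huv).1 ⟨hu, hv⟩) hne
      · exact Afun_mean_left hu hv hp
    · by_cases hv : v ∈ e
      · have := Afun_mean_left hv hu hp
        simp_rw [Afun_comm v u] at this
        exact this
      · simp_rw [Afun_upd_none hu hv]
        rw [← sum_mul, sum_wt, one_mul]

end first

/-! ### The sum at a vertex -/

section second

variable {ε : ℝ}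

open Classical in
/-- The sum of the future terms at the vertex `u`. -/
noncomputable def Rfun (es : List (Sym2 V)) (u : V) (c : Fin Δ) (s : St V Δ) : ℝ :=
  (∑ w, if s(u, w) ∈ es then s.X w c else 0) / Δ

/-- The martingale at the vertex `u`. -/
noncomputable def Yfun (es : List (Sym2 V)) (u : V) (c : Fin Δ) (s : St V Δ) : ℝ :=
  s.S u c + Rfun es u c s

open Classical in
/-- The number of ends `w` of `e` such that `uw` is in the list `E`. -/
noncomputable def cnt (E : List (Sym2 V)) (u : V) (e : Sym2 V) : ℝ :=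
  ∑ w, if s(u, w) ∈ E ∧ w ∈ e then 1 else 0

theorem cnt_nonneg (E : List (Sym2 V)) (u : V) (e : Sym2 V) : 0 ≤ cnt E u e :=
  sum_nonneg fun w _ => by split_ifs <;> norm_num

theorem card_ends_le (e : Sym2 V) : (∑ w, if w ∈ e then (1 : ℝ) else 0) ≤ 2 := by
  induction e using Sym2.ind with
  | _ a b =>
    have h : ∀ w, (if w ∈ s(a, b) then (1 : ℝ) else 0) ≤
        (if w = a then 1 else 0) + (if w = b then 1 else 0) := by
      intro w
      have h1 : (0 : ℝ) ≤ if w = a then 1 else 0 := by split_ifs <;> norm_num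
      have h2 : (0 : ℝ) ≤ if w = b then 1 else 0 := by split_ifs <;> norm_num
      by_cases hw : w ∈ s(a, b)
      · rw [if_pos hw]
        rcases Sym2.mem_iff.1 hw with h | h
        · rw [if_pos h]; linarith
        · rw [if_pos (c := w = b) h]; linarith
      · rw [if_neg hw]; linarith
    refine (sum_le_sum fun w _ => h w).trans ?_
    rw [sum_add_distrib]
    simp
    norm_num

theorem cnt_le_two (E : List (Sym2 V)) (u : V) (e : Sym2 V) : cnt E u e ≤ 2 := by
  refine le_trans (sum_le_sum fun w _ => ?_) (card_ends_le e)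
  by_cases h : w ∈ e
  · rw [if_pos h]; split_ifs <;> norm_num
  · rw [if_neg h, if_neg (fun h' => h h'.2)]

theorem upd_X (s : St V Δ) (e : Sym2 V) (k : Option (Fin Δ)) (w : V) (c : Fin Δ) :
    (upd ε s e k).X w c =
      if w ∈ e then (if k = some c then 0 else s.X w c / (1 - pr ε s e c)) else s.X w c := rfl

theorem upd_S (s : St V Δ) (e : Sym2 V) (k : Option (Fin Δ)) (w : V) (c : Fin Δ) :
    (upd ε s e k).S w c = s.S w c + (∑ v, if e = s(w, v) then s.X v c else 0) / Δ := rfl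

/-- A step with an edge at `u` does not change the martingale. -/
theorem Yfun_upd_mem {es : List (Sym2 V)} {e : Sym2 V} (hnd : (e :: es).Nodup)
    (hes : ∀ e' ∈ e :: es, ¬ e'.IsDiag) {u : V} (hu : u ∈ e) (c : Fin Δ) (s : St V Δ)
    (k : Option (Fin Δ)) : Yfun es u c (upd ε s e k) = Yfun (e :: es) u c s := by
  classical
  obtain ⟨v, rfl⟩ := hu
  have huv : u ≠ v := by
    intro h; exact hes _ List.mem_cons_self (by rw [h]; exact Sym2.mk_isDiag_iff.2 rfl)
  have hnot : s(u, v) ∉ es := (List.nodup_cons.1 hnd).1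
  unfold Yfun Rfun
  rw [upd_S, sum_other huv, add_assoc, ← add_div]
  congr 2
  have h1 : ∀ w, (if s(u, w) ∈ es then (upd ε s s(u, v) k).X w c else 0) =
      (if s(u, w) ∈ es then s.X w c else 0) := by
    intro w
    by_cases h : s(u, w) ∈ es
    · rw [if_pos h, if_pos h, upd_X, if_neg]
      intro hw
      rw [Sym2.mem_iff] at hw
      rcases hw with rfl | rfl
      · exact hes _ (List.mem_cons_of_mem _ h) (Sym2.mk_isDiag_iff.2 rfl)
      · exact hnot h
    · rw [if_neg h, if_neg h]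
  simp_rw [h1]
  have h2 : ∀ w, (if s(u, w) ∈ s(u, v) :: es then s.X w c else 0) =
      (if w = v then s.X w c else 0) + (if s(u, w) ∈ es then s.X w c else 0) := by
    intro w
    by_cases hw : w = v
    · subst hw
      rw [if_pos List.mem_cons_self, if_pos rfl, if_neg hnot, add_zero]
    · rw [if_neg hw, zero_add]
      have : s(u, w) ∈ s(u, v) :: es ↔ s(u, w) ∈ es := by
        rw [List.mem_cons]
        constructor
        · rintro (h | h)
          · rw [Sym2.eq_iff] at h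
            rcases h with ⟨_, h⟩ | ⟨h, _⟩
            · exact absurd h hw
            · exact absurd h huv
          · exact h
        · exact Or.inr
      simp only [this]
  simp_rw [h2]
  rw [sum_add_distrib]
  simp

theorem bb_single (s : St V Δ) (e : Sym2 V) (c : Fin Δ) (m : ℝ) :
    ∑ k, wt ε s e k * bb ε s e (fun c' => if c' = c then m else 0) k =
      pr ε s e c * (m / (1 - pr ε s e c)) := by
  rw [sum_bb, sum_eq_single c]
  · simp
  · intro c' _ hc
    simp [hc]
  · simp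

theorem bb_single_apply (s : St V Δ) (e : Sym2 V) (hp : ∀ c, pr ε s e c ≤ 1 / 2) (c : Fin Δ)
    (m : ℝ) (k : Option (Fin Δ)) :
    (if k = some c then 0 else m / (1 - pr ε s e c)) =
      m + pr ε s e c * (m / (1 - pr ε s e c)) -
        bb ε s e (fun c' => if c' = c then m else 0) k := by
  have h0 : 1 - pr ε s e c ≠ 0 := by have := hp c; intro h; linarith
  have h1 : m + pr ε s e c * (m / (1 - pr ε s e c)) = m / (1 - pr ε s e c) := by
    field_simp
    ring
  rw [h1]
  cases k with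
  | none => simp [bb]
  | some c0 =>
    by_cases h : c0 = c
    · subst h; simp [bb]
    · rw [if_neg (fun h' => h (Option.some.inj h'))]
      simp [bb, h]

/-- A step with an edge not at `u`. -/
theorem Yfun_step (hε : 0 < ε) (hε1 : ε ≤ 1) (hΔ : 8 / ε ^ 2 ≤ Δ) {s : St V Δ}
    (hs : Inv ε s) {e : Sym2 V} {u : V} (hu : u ∉ e) {es E : List (Sym2 V)} (hE : ∀ e ∈ es, e ∈ E)
    (c : Fin Δ) (y : ℝ) :
    ∑ k, wt ε s e k * (Yfun es u c (upd ε s e k) - y) ^ 2 ≤
      (Yfun (e :: es) u c s - y) ^ 2 + cnt E u e * (128 / (ε ^ 4 * Δ ^ 3)) := by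
  classical
  have hΔ0 : (0 : ℝ) < Δ := lt_of_lt_of_le (by positivity) hΔ
  have hp := pr_le_half hε hε1 hΔ s e
  have hp0 := pr_nonneg hε1 s e
  set m : ℝ := (∑ w, if s(u, w) ∈ es ∧ w ∈ e then s.X w c else 0) / Δ with hm
  set a : Fin Δ → ℝ := fun c' => if c' = c then m else 0 with ha
  have hY : Yfun (e :: es) u c s = Yfun es u c s := by
    unfold Yfun Rfun
    have : ∀ w, s(u, w) ∈ e :: es ↔ s(u, w) ∈ es := by
      intro w
      rw [List.mem_cons]
      constructor
      · rintro (h | h)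
        · exact absurd (h ▸ Sym2.mem_mk_left u w) hu
        · exact h
      · exact Or.inr
    simp_rw [this]
  have hupd : ∀ k, Yfun es u c (upd ε s e k) = Yfun es u c s +
      (∑ k', wt ε s e k' * bb ε s e a k') - bb ε s e a k := by
    intro k
    unfold Yfun Rfun
    rw [upd_S, sum_other' hu, zero_div, add_zero, add_assoc, add_sub_assoc]
    congr 1
    rw [bb_single]
    have h1 : ∀ w, (if s(u, w) ∈ es then (upd ε s e k).X w c else 0) =
        (if s(u, w) ∈ es then s.X w c else 0) - (if s(u, w) ∈ es ∧ w ∈ e then s.X w c else 0) +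
        (if s(u, w) ∈ es ∧ w ∈ e then
          (if k = some c then 0 else s.X w c / (1 - pr ε s e c)) else 0) := by
      intro w
      rw [upd_X]
      by_cases h : s(u, w) ∈ es <;> by_cases h' : w ∈ e <;> simp [h, h']
    simp_rw [h1]
    rw [sum_add_distrib, sum_sub_distrib, add_div, sub_div, ← hm]
    have h2 : (∑ w, if s(u, w) ∈ es ∧ w ∈ e then
        (if k = some c then 0 else s.X w c / (1 - pr ε s e c)) else 0) / (Δ : ℝ) =
        if k = some c then 0 else m / (1 - pr ε s e c) := by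
      by_cases hk : k = some c
      · simp [hk]
      · simp only [hk, if_false]
        rw [hm, div_right_comm, sum_div (a := 1 - pr ε s e c)]
        congr 1
        refine sum_congr rfl fun w _ => ?_
        split_ifs
        · rfl
        · simp
    rw [h2, bb_single_apply s e hp c m k]
    ring
  have h1 := second_moment s e (wt_nonneg hε1 s e) (bb ε s e a) (Yfun es u c s - y)
  have h2 : ∑ k, wt ε s e k * (Yfun es u c (upd ε s e k) - y) ^ 2 =
      ∑ k, wt ε s e k * (Yfun es u c s - y + (∑ k', wt ε s e k' * bb ε s e a k') -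
        bb ε s e a k) ^ 2 := by
    refine sum_congr rfl fun k _ => ?_
    rw [hupd]
    ring
  rw [h2, hY]
  refine h1.trans (add_le_add (le_refl _) ?_)
  rw [sum_wt_mul]
  have h6 : (1 - ∑ c, pr ε s e c) * bb ε s e a none ^ 2 = 0 := by simp [bb]
  rw [h6, zero_add, sum_eq_single c]
  rotate_left
  · intro c' _ hc
    simp [bb, ha, hc]
  · simp
  have hcpos := cnt_nonneg E u e
  rcases (hp0 c).eq_or_lt with h0 | h0
  · rw [← h0, zero_mul]
    positivity
  · have hX : ∀ w, w ∈ e → 0 ≤ s.X w c ∧ s.X w c ≤ 2 / ε := fun w hw => pr_pos_imp hε1 h0.ne' hw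
    have hm0 : 0 ≤ m := div_nonneg (sum_nonneg fun w _ => by
      split_ifs with h
      · exact (hX w h.2).1
      · exact le_refl _) hΔ0.le
    have hm1 : m ≤ 2 / (ε * Δ) * cnt E u e := by
      have h7 : (∑ w, if s(u, w) ∈ es ∧ w ∈ e then s.X w c else 0) ≤ 2 / ε * cnt E u e := by
        unfold cnt
        rw [mul_sum]
        refine sum_le_sum fun w _ => ?_
        by_cases h : s(u, w) ∈ es ∧ w ∈ e
        · rw [if_pos h, if_pos ⟨hE _ h.1, h.2⟩, mul_one]
          exact (hX w h.2).2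
        · rw [if_neg h]
          split_ifs
          · positivity
          · simp
      calc m ≤ 2 / ε * cnt E u e / Δ := div_le_div_of_nonneg_right h7 hΔ0.le
        _ = 2 / (ε * Δ) * cnt E u e := by field_simp
    have hpc : pr ε s e c ≤ 4 / (ε ^ 2 * Δ) := by
      refine (pr_le_raw hε1 s e c).trans ((raw_le hε hε1 s e c).trans (le_of_eq ?_))
      field_simp
      norm_num
    have hbb : bb ε s e a (some c) = m / (1 - pr ε s e c) := by simp [bb, ha]
    rw [hbb]
    have h8 : m / (1 - pr ε s e c) ≤ 2 * m := by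
      rw [div_le_iff₀ (by linarith [hp c])]
      nlinarith [hp c]
    have h9 : 0 ≤ m / (1 - pr ε s e c) := div_nonneg hm0 (by linarith [hp c])
    have hcnt2 := cnt_le_two E u e
    calc pr ε s e c * (m / (1 - pr ε s e c)) ^ 2
        ≤ 4 / (ε ^ 2 * Δ) * (2 * (2 / (ε * Δ) * cnt E u e)) ^ 2 := by
          refine mul_le_mul hpc ?_ (sq_nonneg _) (by positivity)
          exact pow_le_pow_left₀ h9 (h8.trans (by linarith)) 2
      _ = 64 / (ε ^ 4 * Δ ^ 3) * (cnt E u e * cnt E u e) := by field_simp; ring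
      _ ≤ 64 / (ε ^ 4 * Δ ^ 3) * (cnt E u e * 2) :=
          mul_le_mul_of_nonneg_left (mul_le_mul_of_nonneg_left hcnt2 hcpos) (by positivity)
      _ = cnt E u e * (128 / (ε ^ 4 * Δ ^ 3)) := by ring

theorem Ex_Yfun (hε : 0 < ε) (hε1 : ε ≤ 1) (hΔ : 8 / ε ^ 2 ≤ Δ) (E : List (Sym2 V)) (u : V)
    (c : Fin Δ) (y : ℝ) (es : List (Sym2 V)) (hE : ∀ e ∈ es, e ∈ E)
    (hes : ∀ e ∈ es, ¬ e.IsDiag) (hnd : es.Nodup) (s : St V Δ) (hs : Inv ε s) :
    Ex ε es (fun s => (s.S u c - y) ^ 2) s ≤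
      (Yfun es u c s - y) ^ 2 + (es.map (cnt E u)).sum * (128 / (ε ^ 4 * Δ ^ 3)) := by
  have hΔ0 : (0 : ℝ) < Δ := lt_of_lt_of_le (by positivity) hΔ
  induction es generalizing s with
  | nil => simp [Ex, Yfun, Rfun]
  | cons e es ih =>
    have hE' : ∀ e ∈ es, e ∈ E := fun e' he' => hE e' (List.mem_cons_of_mem _ he')
    have hes' : ∀ e' ∈ es, ¬ e'.IsDiag := fun e' he' => hes e' (List.mem_cons_of_mem _ he')
    have hnd' := (List.nodup_cons.1 hnd).2
    have hee : ¬ e.IsDiag := hes e List.mem_cons_self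
    have h1 : Ex ε (e :: es) (fun s => (s.S u c - y) ^ 2) s ≤
        ∑ k, wt ε s e k * ((Yfun es u c (upd ε s e k) - y) ^ 2 +
          (es.map (cnt E u)).sum * (128 / (ε ^ 4 * Δ ^ 3))) :=
      sum_le_sum fun k _ => mul_le_mul_of_nonneg_left
        (ih hE' hes' hnd' _ (inv_upd hε hε1 hΔ hs hee k)) (wt_nonneg hε1 s e k)
    refine h1.trans ?_
    simp_rw [mul_add]
    rw [sum_add_distrib, ← sum_mul, sum_wt, one_mul, List.map_cons, List.sum_cons]
    have hpos : 0 < 128 / (ε ^ 4 * (Δ : ℝ) ^ 3) := by positivity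
    by_cases hu : u ∈ e
    · simp_rw [Yfun_upd_mem hnd hes hu]
      rw [← sum_mul, sum_wt, one_mul]
      have := mul_nonneg (cnt_nonneg E u e) hpos.le
      linarith
    · have h2 := Yfun_step hε hε1 hΔ hs hu hE' c y
      linarith

/-- The number of neighbours. -/
theorem card_nbr_le (es : List (Sym2 V)) (u : V) :
    (∑ w, if s(u, w) ∈ es then (1 : ℝ) else 0) ≤ dg es u := by
  classical
  induction es with
  | nil => simp [dg]
  | cons e es ih =>
    rw [dg_cons]
    push_cast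
    have h : ∀ w, (if s(u, w) ∈ e :: es then (1 : ℝ) else 0) ≤
        (if s(u, w) ∈ es then 1 else 0) + (if e = s(u, w) then 1 else 0) := by
      intro w
      by_cases h1 : s(u, w) ∈ es <;> by_cases h2 : e = s(u, w)
      · simp [h1, h2]
      · simp [h1, h2]
      · simp [h1, h2]
      · have h3 : ¬ s(u, w) = e := fun h => h2 h.symm
        simp [h1, h2, h3]
    refine (sum_le_sum fun w _ => h w).trans ?_
    rw [sum_add_distrib]
    refine add_le_add ih ?_
    by_cases hu : u ∈ e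
    · rw [if_pos hu]
      obtain ⟨v, rfl⟩ := hu
      rw [sum_eq_single v]
      · simp
      · intro w _ hw
        rw [if_neg]
        intro h
        rw [Sym2.eq_iff] at h
        rcases h with ⟨_, h⟩ | ⟨h, h'⟩
        · exact hw h.symm
        · exact hw (h.symm.trans h'.symm ▸ rfl)
      · simp
    · rw [if_neg hu]
      refine le_of_eq (sum_eq_zero fun w _ => ?_)
      rw [if_neg]
      rintro rfl
      exact hu (Sym2.mem_mk_left _ _)

theorem sum_cnt_le {D : ℝ} (hD : 0 ≤ D) (E es : List (Sym2 V)) (u : V)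
    (hdE : (dg E u : ℝ) ≤ D) (hd : ∀ w, (dg es w : ℝ) ≤ D) :
    (es.map (cnt E u)).sum ≤ D ^ 2 := by
  classical
  have h1 : (es.map (cnt E u)).sum = ∑ w, if s(u, w) ∈ E then (dg es w : ℝ) else 0 := by
    clear hd
    induction es with
    | nil => simp [dg]
    | cons e es ih =>
      rw [List.map_cons, List.sum_cons, ih]
      unfold cnt
      rw [← sum_add_distrib]
      refine sum_congr rfl fun w _ => ?_
      rw [dg_cons]
      by_cases h1 : s(u, w) ∈ E <;> by_cases h2 : w ∈ e <;> simp [h1, h2, add_comm]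
  rw [h1]
  calc (∑ w, if s(u, w) ∈ E then (dg es w : ℝ) else 0)
      ≤ ∑ w, (if s(u, w) ∈ E then (1 : ℝ) else 0) * D := sum_le_sum fun w _ => by
        split_ifs
        · rw [one_mul]; exact hd w
        · simp
    _ = (∑ w, if s(u, w) ∈ E then (1 : ℝ) else 0) * D := by rw [sum_mul]
    _ ≤ D * D := mul_le_mul_of_nonneg_right ((card_nbr_le E u).trans hdE) hD
    _ = D ^ 2 := by ring

end second

/-! ### The conclusion -/

section final

variable {ε : ℝ}

theorem bad_le (hε : 0 < ε) (hε1 : ε ≤ 1) {s : St V Δ} (hs : Inv ε s) {w : V} {c : Fin Δ}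
    (hX : 2 / ε < s.X w c) {y : ℝ} (hy : y ≤ 1) : 1 ≤ 4 / ε ^ 2 * (s.S w c - y) ^ 2 := by
  have hX0 : 0 < s.X w c := lt_trans (by positivity) hX
  have h1 := hs.key w c
  have h2 : 1 - (1 - ε) * s.S w c < ε / 2 := by
    by_contra h
    push Not at h
    have h3 : 2 / ε * (ε / 2) < s.X w c * (ε / 2) := mul_lt_mul_of_pos_right hX (by positivity)
    have h4 : s.X w c * (ε / 2) ≤ s.X w c * (1 - (1 - ε) * s.S w c) :=
      mul_le_mul_of_nonneg_left h hX0.le
    have h5 : 2 / ε * (ε / 2) = 1 := by field_simp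
    linarith
  have h3 : 1 + ε / 2 < s.S w c := by
    by_contra h
    push Not at h
    nlinarith
  have h4 : ε / 2 ≤ s.S w c - y := by linarith
  have h5 : (ε / 2) ^ 2 ≤ (s.S w c - y) ^ 2 := pow_le_pow_left₀ (by positivity) h4 2
  calc (1 : ℝ) = 4 / ε ^ 2 * (ε / 2) ^ 2 := by field_simp; norm_num
    _ ≤ 4 / ε ^ 2 * (s.S w c - y) ^ 2 := mul_le_mul_of_nonneg_left h5 (by positivity)

theorem pointwise (hε : 0 < ε) (hε1 : ε ≤ 1) (hΔ : 8 / ε ^ 2 ≤ Δ) {s : St V Δ} (hs : Inv ε s)
    (u v : V) {y z : Fin Δ → ℝ} (hy : ∀ c, y c ≤ 1) (hz : ∀ c, z c ≤ 1) :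
    (1 - ε) * Afun u v s - 2 / ε ^ 2 * (Afun u v s - 1) ^ 2 -
      ∑ c, 64 / (ε ^ 4 * Δ) * ((s.S u c - y c) ^ 2 + (s.S v c - z c) ^ 2) ≤
        ∑ c, pr ε s s(u, v) c := by
  have hΔ0 : (0 : ℝ) < Δ := lt_of_lt_of_le (by positivity) hΔ
  have h1 : ∀ c, (1 - ε) * (s.X u c * s.X v c) / Δ -
      64 / (ε ^ 4 * Δ) * ((s.S u c - y c) ^ 2 + (s.S v c - z c) ^ 2) ≤ raw ε s s(u, v) c := by
    intro c
    have hu0 := hs.nonneg u c
    have hv0 := hs.nonneg v c
    have hu1 := hs.bound u c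
    have hv1 := hs.bound v c
    have hpos : 0 ≤ 64 / (ε ^ 4 * Δ) * ((s.S u c - y c) ^ 2 + (s.S v c - z c) ^ 2) := by positivity
    rw [raw_mk]
    split_ifs with h
    · have : (1 - ε) / Δ * (s.X u c * s.X v c) = (1 - ε) * (s.X u c * s.X v c) / Δ := by ring
      rw [this]; linarith
    · have h2 : (1 - ε) * (s.X u c * s.X v c) / Δ ≤ 16 / (ε ^ 2 * Δ) := by
        have h3 : s.X u c * s.X v c ≤ 4 / ε * (4 / ε) := mul_le_mul hu1 hv1 hv0 (by positivity)
        have h4 : (1 - ε) * (s.X u c * s.X v c) ≤ 4 / ε * (4 / ε) := by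
          have := mul_nonneg hu0 hv0
          nlinarith
        calc (1 - ε) * (s.X u c * s.X v c) / Δ ≤ 4 / ε * (4 / ε) / Δ :=
              div_le_div_of_nonneg_right h4 hΔ0.le
          _ = 16 / (ε ^ 2 * Δ) := by field_simp; norm_num
      have h5 : 1 ≤ 4 / ε ^ 2 * ((s.S u c - y c) ^ 2 + (s.S v c - z c) ^ 2) := by
        have h6 : 2 / ε < s.X u c ∨ 2 / ε < s.X v c := by
          by_contra h'
          push Not at h'
          exact h ⟨⟨hu0, h'.1⟩, hv0, h'.2⟩
        rcases h6 with h6 | h6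
        · have := bad_le hε hε1 hs h6 (hy c)
          have h7 : 0 ≤ 4 / ε ^ 2 * (s.S v c - z c) ^ 2 := by positivity
          rw [mul_add]; linarith
        · have := bad_le hε hε1 hs h6 (hz c)
          have h7 : 0 ≤ 4 / ε ^ 2 * (s.S u c - y c) ^ 2 := by positivity
          rw [mul_add]; linarith
      have h8 : 16 / (ε ^ 2 * Δ) ≤
          64 / (ε ^ 4 * Δ) * ((s.S u c - y c) ^ 2 + (s.S v c - z c) ^ 2) := by
        calc 16 / (ε ^ 2 * Δ) = 16 / (ε ^ 2 * Δ) * 1 := by ring
          _ ≤ 16 / (ε ^ 2 * Δ) * (4 / ε ^ 2 * ((s.S u c - y c) ^ 2 + (s.S v c - z c) ^ 2)) :=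
            mul_le_mul_of_nonneg_left h5 (by positivity)
          _ = 64 / (ε ^ 4 * Δ) * ((s.S u c - y c) ^ 2 + (s.S v c - z c) ^ 2) := by
            field_simp; ring
      linarith
  have h2 : (1 - ε) * Afun u v s -
      ∑ c, 64 / (ε ^ 4 * Δ) * ((s.S u c - y c) ^ 2 + (s.S v c - z c) ^ 2) ≤
      ∑ c, raw ε s s(u, v) c := by
    refine le_trans (le_of_eq ?_) (sum_le_sum fun c _ => h1 c)
    have h3 : (1 - ε) * Afun u v s = ∑ c, (1 - ε) * (s.X u c * s.X v c) / Δ := by
      unfold Afun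
      rw [mul_div_assoc', mul_sum, sum_div]
    rw [h3, ← sum_sub_distrib]
  have hsq : 0 ≤ 2 / ε ^ 2 * (Afun u v s - 1) ^ 2 := by positivity
  have hS : 0 ≤ ∑ c, 64 / (ε ^ 4 * Δ) * ((s.S u c - y c) ^ 2 + (s.S v c - z c) ^ 2) :=
    sum_nonneg fun c _ => by positivity
  unfold pr
  by_cases h : ∑ c', raw ε s s(u, v) c' ≤ 1
  · simp only [h, if_true]
    linarith
  · simp only [h, if_false, sum_const_zero]
    push Not at h
    have h3 : ∑ c, raw ε s s(u, v) c ≤ (1 - ε) * Afun u v s := by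
      unfold Afun
      rw [mul_div_assoc', mul_sum, sum_div]
      refine sum_le_sum fun c _ => ?_
      rw [raw_mk]
      split_ifs with h
      · exact le_of_eq (by ring)
      · exact div_nonneg (mul_nonneg (by linarith) (mul_nonneg (hs.nonneg u c) (hs.nonneg v c)))
          hΔ0.le
    have h4 : 1 < (1 - ε) * Afun u v s := lt_of_lt_of_le h h3
    set x := Afun u v s - 1 with hx
    have h5 : Afun u v s = 1 + x := by ring
    rw [h5] at h4 ⊢
    have h6 : ε < x := by nlinarith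
    have h7 : 1 ≤ x ^ 2 / ε ^ 2 := by
      rw [le_div_iff₀ (by positivity), one_mul]
      exact pow_le_pow_left₀ hε.le h6.le 2
    have h8 : x ≤ x ^ 2 / ε ^ 2 := by
      rw [le_div_iff₀ (by positivity)]
      nlinarith [mul_pos hε (sub_pos.2 h6)]
    have h9 : 2 / ε ^ 2 * x ^ 2 = 2 * (x ^ 2 / ε ^ 2) := by ring
    rw [h9]
    nlinarith

theorem main_bound (hε : 0 < ε) (hε1 : ε ≤ 1) (hΔ : 8 / ε ^ 2 ≤ Δ) {es : List (Sym2 V)}
    (hes : ∀ e ∈ es, ¬ e.IsDiag) (hnd : es.Nodup) {u v : V} (huv : u ≠ v)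
    (hmem : s(u, v) ∉ es) (hd : ∀ w, (dg es w : ℝ) ≤ Δ) :
    1 - ε - 17408 / (ε ^ 8 * Δ) ≤
      Ex ε es (fun s => ∑ c, pr ε s s(u, v) c) (init V Δ) := by
  classical
  have hΔ0 : (0 : ℝ) < Δ := lt_of_lt_of_le (by positivity) hΔ
  have hinit := inv_init (V := V) (Δ := Δ) hε hε1
  have hYi : ∀ w c, Yfun es w c (init V Δ) ≤ 1 := by
    intro w c
    unfold Yfun Rfun
    show (0 : ℝ) + (∑ w', if s(w, w') ∈ es then (1 : ℝ) else 0) / Δ ≤ 1
    rw [zero_add, div_le_one hΔ0]
    exact (card_nbr_le es w).trans (hd w)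
  have hA1 : Afun u v (init V Δ) = 1 := by
    unfold Afun
    show (∑ _c : Fin Δ, (1 : ℝ) * 1) / Δ = 1
    simp [hΔ0.ne']
  have hS : ∀ w c, Ex ε es (fun s => (s.S w c - Yfun es w c (init V Δ)) ^ 2) (init V Δ) ≤
      128 / (ε ^ 4 * Δ) := by
    intro w c
    refine (Ex_Yfun hε hε1 hΔ es w c _ es (fun e he => he) hes hnd _ hinit).trans ?_
    rw [sub_self]
    have h1 := sum_cnt_le hΔ0.le es es w (hd w) hd
    calc (0 : ℝ) ^ 2 + (es.map (cnt es w)).sum * (128 / (ε ^ 4 * Δ ^ 3))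
        ≤ 0 ^ 2 + Δ ^ 2 * (128 / (ε ^ 4 * Δ ^ 3)) := by
          have := mul_le_mul_of_nonneg_right h1
            (show (0 : ℝ) ≤ 128 / (ε ^ 4 * Δ ^ 3) by positivity)
          linarith
      _ = 128 / (ε ^ 4 * Δ) := by field_simp; ring
  have hA2 : Ex ε es (fun s => (Afun u v s - 1) ^ 2) (init V Δ) ≤ 512 / (ε ^ 4 * Δ) := by
    refine (Ex_Afun_sq hε hε1 hΔ hes huv hmem hinit 1).trans ?_
    rw [hA1, sub_self]
    have h1 : ((dg es u : ℝ) + dg es v) * (256 / (ε ^ 4 * Δ ^ 2)) ≤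
        (Δ + Δ) * (256 / (ε ^ 4 * Δ ^ 2)) :=
      mul_le_mul_of_nonneg_right (add_le_add (hd u) (hd v)) (by positivity)
    have h2 : ((Δ : ℝ) + Δ) * (256 / (ε ^ 4 * Δ ^ 2)) = 512 / (ε ^ 4 * Δ) := by
      field_simp; ring
    linarith
  -- the lower bound
  have hlow : Ex ε es (fun s => (1 - ε) * Afun u v s - 2 / ε ^ 2 * (Afun u v s - 1) ^ 2 -
      ∑ c, 64 / (ε ^ 4 * Δ) * ((s.S u c - Yfun es u c (init V Δ)) ^ 2 +
        (s.S v c - Yfun es v c (init V Δ)) ^ 2)) (init V Δ) ≤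
      Ex ε es (fun s => ∑ c, pr ε s s(u, v) c) (init V Δ) :=
    Ex_mono hε hε1 hΔ hes (fun s hs => pointwise hε hε1 hΔ hs u v (hYi u) (hYi v)) hinit
  refine le_trans ?_ hlow
  have e1 : Ex ε es (fun s => (1 - ε) * Afun u v s - 2 / ε ^ 2 * (Afun u v s - 1) ^ 2 -
      ∑ c, 64 / (ε ^ 4 * Δ) * ((s.S u c - Yfun es u c (init V Δ)) ^ 2 +
        (s.S v c - Yfun es v c (init V Δ)) ^ 2)) (init V Δ) =
      (1 - ε) * Ex ε es (Afun u v) (init V Δ) +
        (-(2 / ε ^ 2)) * Ex ε es (fun s => (Afun u v s - 1) ^ 2) (init V Δ) +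
        ∑ c, (-(64 / (ε ^ 4 * Δ))) * (Ex ε es (fun s => (s.S u c -
          Yfun es u c (init V Δ)) ^ 2) (init V Δ) + Ex ε es (fun s => (s.S v c -
          Yfun es v c (init V Δ)) ^ 2) (init V Δ)) := by
    rw [← Ex_mul, ← Ex_mul, ← Ex_add]
    simp_rw [← Ex_add, ← Ex_mul]
    rw [← Ex_sum, ← Ex_add]
    congr 1
    funext s
    rw [sub_eq_add_neg, ← sum_neg_distrib]
    congr 1
    · ring
    · exact sum_congr rfl fun c _ => by ring
  rw [e1, Ex_Afun hε hε1 hΔ huv hmem, hA1]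
  have h3 : ∑ c, (64 / (ε ^ 4 * Δ)) * (Ex ε es (fun s => (s.S u c -
      Yfun es u c (init V Δ)) ^ 2) (init V Δ) + Ex ε es (fun s => (s.S v c -
      Yfun es v c (init V Δ)) ^ 2) (init V Δ)) ≤ 16384 / (ε ^ 8 * Δ) := by
    calc _ ≤ ∑ _c : Fin Δ, (64 / (ε ^ 4 * (Δ : ℝ))) * (128 / (ε ^ 4 * Δ) + 128 / (ε ^ 4 * Δ)) :=
          sum_le_sum fun c _ => mul_le_mul_of_nonneg_left (add_le_add (hS u c) (hS v c))
            (by positivity)
      _ = 16384 / (ε ^ 8 * Δ) := by
          rw [sum_const, card_univ, Fintype.card_fin, nsmul_eq_mul]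
          field_simp
          norm_num
  have h4 : 2 / ε ^ 2 * Ex ε es (fun s => (Afun u v s - 1) ^ 2) (init V Δ) ≤
      1024 / (ε ^ 8 * Δ) := by
    calc _ ≤ 2 / ε ^ 2 * (512 / (ε ^ 4 * Δ)) := mul_le_mul_of_nonneg_left hA2 (by positivity)
      _ = 1024 / (ε ^ 6 * Δ) := by field_simp; norm_num
      _ ≤ 1024 / (ε ^ 8 * Δ) := by
          refine div_le_div_of_nonneg_left (by norm_num) (by positivity) ?_
          refine mul_le_mul_of_nonneg_right ?_ hΔ0.le
          exact pow_le_pow_of_le_one hε.le hε1 (by norm_num)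
  have h5 : ∑ c, (-(64 / (ε ^ 4 * Δ))) * (Ex ε es (fun s => (s.S u c -
      Yfun es u c (init V Δ)) ^ 2) (init V Δ) + Ex ε es (fun s => (s.S v c -
      Yfun es v c (init V Δ)) ^ 2) (init V Δ)) = - ∑ c, (64 / (ε ^ 4 * Δ)) *
      (Ex ε es (fun s => (s.S u c -
      Yfun es u c (init V Δ)) ^ 2) (init V Δ) + Ex ε es (fun s => (s.S v c -
      Yfun es v c (init V Δ)) ^ 2) (init V Δ)) := by
    rw [← sum_neg_distrib]
    exact sum_congr rfl fun c _ => by ring
  rw [h5]
  have h6 : (17408 : ℝ) / (ε ^ 8 * Δ) = 16384 / (ε ^ 8 * Δ) + 1024 / (ε ^ 8 * Δ) := by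
    rw [← add_div]; norm_num
  rw [h6]
  linarith

end final

end Pool.Agent.T6.H67.EdgeCol
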