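import Mathlib

/-!
# Sets all of whose one-coordinate sections are subgroups are positively correlated
-/

set_option autoImplicit false

open scoped Classical

namespace Pool.Agent.T6.H67.PAG

/-- A set closed under subtraction: empty or a subgroup. -/
def SubCl {V : Type} [AddCommGroup V] (A : Set V) : Prop := ∀ a ∈ A, ∀ b ∈ A, a - b ∈ A

lemma card_inter_ge {V : Type} [AddCommGroup V] [Finite V] (A B : Set V)
    (hA : SubCl A) (hB : SubCl B) :
    Nat.card A * Nat.card B ≤ Nat.card (A ∩ B : Set V) * Nat.card V := by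
  rcases A.eq_empty_or_nonempty with rfl | hA0
  · simp
  rcases B.eq_empty_or_nonempty with rfl | hB0
  · simp
  let H : AddSubgroup V := AddSubgroup.ofSub A hA0 (fun a ha b hb => by
    rw [← sub_eq_add_neg]; exact hA a ha b hb)
  let K : AddSubgroup V := AddSubgroup.ofSub B hB0 (fun a ha b hb => by
    rw [← sub_eq_add_neg]; exact hB a ha b hb)
  have h1 := AddSubgroup.card_mul_index H
  have h2 := AddSubgroup.card_mul_index K
  have h3 := AddSubgroup.card_mul_index (H ⊓ K)
  have h4 := AddSubgroup.index_inf_le (H := H) (K := K)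
  have e1 : Nat.card A = Nat.card H := rfl
  have e2 : Nat.card B = Nat.card K := rfl
  have e3 : Nat.card (A ∩ B : Set V) = Nat.card (H ⊓ K : AddSubgroup V) := rfl
  rw [e1, e2, e3]
  have hH : 0 < Nat.card H := Nat.card_pos
  have hK : 0 < Nat.card K := Nat.card_pos
  have hHi : 0 < H.index := Nat.pos_of_ne_zero AddSubgroup.FiniteIndex.index_ne_zero
  have hKi : 0 < K.index := Nat.pos_of_ne_zero AddSubgroup.FiniteIndex.index_ne_zero
  have hV : 0 < Nat.card V := Nat.card_pos
  have key : Nat.card H * Nat.card K * (H.index * K.index)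
      ≤ Nat.card (H ⊓ K : AddSubgroup V) * Nat.card V * (H.index * K.index) := by
    calc Nat.card H * Nat.card K * (H.index * K.index)
        = (Nat.card H * H.index) * (Nat.card K * K.index) := by ring
      _ = Nat.card V * Nat.card V := by rw [h1, h2]
      _ = Nat.card V * (Nat.card (H ⊓ K : AddSubgroup V) * (H ⊓ K).index) := by rw [h3]
      _ ≤ Nat.card V * (Nat.card (H ⊓ K : AddSubgroup V) * (H.index * K.index)) := by
          gcongr
      _ = _ := by ring
  exact Nat.le_of_mul_le_mul_right key (by positivity)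

lemma card_eq_sum {X : Type} [Fintype X] (A : Set X) :
    Nat.card A = ∑ x, if x ∈ A then 1 else 0 := by
  rw [Nat.card_eq_fintype_card, Fintype.card_subtype, Finset.card_filter]

lemma prod_corr {V Y : Type} [Fintype V] [Fintype Y] (A B : Set (V × Y))
    (h1 : ∀ y y' : Y, Nat.card {v | (v, y) ∈ A} * Nat.card {v | (v, y') ∈ B}
      ≤ Nat.card ({v | (v, y) ∈ A} ∩ {v | (v, y') ∈ B} : Set V) * Nat.card V)
    (h2 : ∀ v : V, Nat.card {y | (v, y) ∈ A} * Nat.card {y | (v, y) ∈ B}
      ≤ Nat.card ({y | (v, y) ∈ A} ∩ {y | (v, y) ∈ B} : Set Y) * Nat.card Y) :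
    Nat.card A * Nat.card B ≤ Nat.card (A ∩ B : Set (V × Y)) * Nat.card (V × Y) := by
  have eA : Nat.card A = ∑ y : Y, Nat.card {v | (v, y) ∈ A} := by
    rw [card_eq_sum, Fintype.sum_prod_type_right]
    refine Finset.sum_congr rfl fun y _ => ?_
    rw [card_eq_sum]; rfl
  have eB : Nat.card B = ∑ y : Y, Nat.card {v | (v, y) ∈ B} := by
    rw [card_eq_sum, Fintype.sum_prod_type_right]
    refine Finset.sum_congr rfl fun y _ => ?_
    rw [card_eq_sum]; rfl
  have eAB : Nat.card (A ∩ B : Set (V × Y))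
      = ∑ v : V, Nat.card ({y | (v, y) ∈ A} ∩ {y | (v, y) ∈ B} : Set Y) := by
    rw [card_eq_sum, Fintype.sum_prod_type]
    refine Finset.sum_congr rfl fun y _ => ?_
    rw [card_eq_sum]; rfl
  have sw : ∑ y : Y, ∑ y' : Y, Nat.card ({v | (v, y) ∈ A} ∩ {v | (v, y') ∈ B} : Set V)
      = ∑ v : V, Nat.card {y | (v, y) ∈ A} * Nat.card {y | (v, y) ∈ B} := by
    have : ∀ y y' : Y, Nat.card ({v | (v, y) ∈ A} ∩ {v | (v, y') ∈ B} : Set V)
        = ∑ v : V, (if (v, y) ∈ A then 1 else 0) * (if (v, y') ∈ B then 1 else 0) := by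
      intro y y'
      rw [card_eq_sum]
      refine Finset.sum_congr rfl fun v _ => ?_
      by_cases ha : (v, y) ∈ A <;> by_cases hb : (v, y') ∈ B <;> simp [ha, hb]
    simp_rw [this]
    have hsw : ∀ y : Y, ∑ y' : Y, ∑ v : V,
        (if (v, y) ∈ A then 1 else 0) * (if (v, y') ∈ B then 1 else 0)
        = ∑ v : V, (if (v, y) ∈ A then 1 else 0) * ∑ y' : Y, (if (v, y') ∈ B then 1 else 0) := by
      intro y
      rw [Finset.sum_comm]
      refine Finset.sum_congr rfl fun v _ => ?_
      rw [Finset.mul_sum]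
    simp_rw [hsw]
    rw [Finset.sum_comm]
    refine Finset.sum_congr rfl fun v _ => ?_
    rw [← Finset.sum_mul, card_eq_sum, card_eq_sum]
    rfl
  calc Nat.card A * Nat.card B
      = ∑ y : Y, ∑ y' : Y, Nat.card {v | (v, y) ∈ A} * Nat.card {v | (v, y') ∈ B} := by
        rw [eA, eB, Finset.sum_mul_sum]
    _ ≤ ∑ y : Y, ∑ y' : Y,
        Nat.card ({v | (v, y) ∈ A} ∩ {v | (v, y') ∈ B} : Set V) * Nat.card V :=
        Finset.sum_le_sum fun y _ => Finset.sum_le_sum fun y' _ => h1 y y'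
    _ = (∑ y : Y, ∑ y' : Y,
        Nat.card ({v | (v, y) ∈ A} ∩ {v | (v, y') ∈ B} : Set V)) * Nat.card V := by
        simp_rw [Finset.sum_mul]
    _ = (∑ v : V, Nat.card {y | (v, y) ∈ A} * Nat.card {y | (v, y) ∈ B}) * Nat.card V := by
        rw [sw]
    _ ≤ (∑ v : V, Nat.card ({y | (v, y) ∈ A} ∩ {y | (v, y) ∈ B} : Set Y) * Nat.card Y)
        * Nat.card V :=
        Nat.mul_le_mul_right _ (Finset.sum_le_sum fun v _ => h2 v)
    _ = _ := by
        rw [← Finset.sum_mul, ← eAB, Nat.card_prod]; ring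

/-- All one-coordinate sections are closed under subtraction. -/
def SecCl {m : ℕ} {V : Fin m → Type} [∀ i, AddCommGroup (V i)] (A : Set (∀ i, V i)) : Prop :=
  ∀ (x : ∀ i, V i) (i : Fin m), SubCl {v : V i | Function.update x i v ∈ A}

lemma SecCl.inter {m : ℕ} {V : Fin m → Type} [∀ i, AddCommGroup (V i)] {A B : Set (∀ i, V i)}
    (hA : SecCl A) (hB : SecCl B) : SecCl (A ∩ B) := by
  intro x i a ha b hb
  exact ⟨hA x i a ha.1 b hb.1, hB x i a ha.2 b hb.2⟩

lemma secCl_univ {m : ℕ} {V : Fin m → Type} [∀ i, AddCommGroup (V i)] :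
    SecCl (Set.univ : Set (∀ i, V i)) := by
  intro x i a ha b hb
  trivial

theorem corr (m : ℕ) : ∀ (V : Fin m → Type) [∀ i, AddCommGroup (V i)] [∀ i, Fintype (V i)]
    (A B : Set (∀ i, V i)), SecCl A → SecCl B →
    Nat.card A * Nat.card B ≤ Nat.card (A ∩ B : Set (∀ i, V i)) * Nat.card (∀ i, V i) := by
  induction m with
  | zero =>
    intro V _ _ A B hA hB
    have hu : ∀ S : Set (∀ i, V i), Nat.card S = if (default : ∀ i, V i) ∈ S then 1 else 0 := by
      intro S
      rw [card_eq_sum, Fintype.sum_unique]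
    rw [hu, hu, hu, Nat.card_unique]
    by_cases h1 : (default : ∀ i, V i) ∈ A <;> by_cases h2 : (default : ∀ i, V i) ∈ B <;>
      simp [h1, h2]
  | succ m ih =>
    intro V _ _ A B hA hB
    let e : V 0 × (∀ i : Fin m, V i.succ) ≃ ∀ i, V i := Fin.consEquiv V
    have he : ∀ v y, e (v, y) = Fin.cons v y := fun _ _ => rfl
    have hcard : ∀ S : Set (∀ i, V i), Nat.card S = Nat.card (e ⁻¹' S) := fun S =>
      Nat.card_congr (Equiv.subtypeEquiv e.symm (fun a => by simp))
    have hcardT : Nat.card (∀ i, V i) = Nat.card (V 0 × (∀ i : Fin m, V i.succ)) :=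
      Nat.card_congr e.symm
    have key1 : ∀ S : Set (∀ i, V i), SecCl S → ∀ y, SubCl {v | (v, y) ∈ e ⁻¹' S} := by
      intro S hS y a ha b hb
      have h0 := hS (Fin.cons a y) 0 a
        (by show Function.update (Fin.cons a y) 0 a ∈ S; rw [Fin.update_cons_zero]; exact ha) b
        (by show Function.update (Fin.cons a y) 0 b ∈ S; rw [Fin.update_cons_zero]; exact hb)
      have h1 : Function.update (Fin.cons a y : ∀ i, V i) 0 (a - b) ∈ S := h0
      rw [Fin.update_cons_zero] at h1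
      exact h1
    have key2 : ∀ S : Set (∀ i, V i), SecCl S → ∀ v, SecCl {y | (v, y) ∈ e ⁻¹' S} := by
      intro S hS v x i a ha b hb
      have h0 := hS (Fin.cons v x) i.succ a
        (by show Function.update (Fin.cons v x) i.succ a ∈ S; rw [← Fin.cons_update]; exact ha) b
        (by show Function.update (Fin.cons v x) i.succ b ∈ S; rw [← Fin.cons_update]; exact hb)
      have h1 : Function.update (Fin.cons v x : ∀ i, V i) i.succ (a - b) ∈ S := h0
      rw [← Fin.cons_update] at h1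
      exact h1
    rw [hcard A, hcard B, hcard (A ∩ B), hcardT, Set.preimage_inter]
    apply prod_corr
    · intro y y'
      exact card_inter_ge _ _ (key1 A hA y) (key1 B hB y')
    · intro v
      exact ih (fun i => V i.succ) _ _ (key2 A hA v) (key2 B hB v)

/-- Positive correlation for a finite family. -/
theorem corr_family {m : ℕ} {V : Fin m → Type} [∀ i, AddCommGroup (V i)] [∀ i, Fintype (V i)]
    {ι : Type} (s : Finset ι) (A : ι → Set (∀ i, V i)) (hA : ∀ t ∈ s, SecCl (A t)) :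
    ∏ t ∈ s, ((Nat.card (A t) : ℝ) / (Nat.card (∀ i, V i) : ℝ))
      ≤ (Nat.card {x | ∀ t ∈ s, x ∈ A t} : ℝ) / (Nat.card (∀ i, V i) : ℝ) := by
  have hpos : (0 : ℝ) < (Nat.card (∀ i, V i) : ℝ) := by
    have : 0 < Nat.card (∀ i, V i) := Nat.card_pos
    exact_mod_cast this
  suffices h : SecCl {x | ∀ t ∈ s, x ∈ A t} ∧
      ∏ t ∈ s, ((Nat.card (A t) : ℝ) / (Nat.card (∀ i, V i) : ℝ))
      ≤ (Nat.card {x | ∀ t ∈ s, x ∈ A t} : ℝ) / (Nat.card (∀ i, V i) : ℝ) from h.2
  induction s using Finset.induction_on with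
  | empty =>
    refine ⟨?_, ?_⟩
    · have : {x : ∀ i, V i | ∀ t ∈ (∅ : Finset ι), x ∈ A t} = Set.univ := by
        ext x; simp
      rw [this]; exact secCl_univ
    · have : {x : ∀ i, V i | ∀ t ∈ (∅ : Finset ι), x ∈ A t} = Set.univ := by
        ext x; simp
      rw [this, Nat.card_congr (Equiv.Set.univ _)]
      rw [div_self hpos.ne']
      simp
  | insert a s ha ih =>
    obtain ⟨ih1, ih2⟩ := ih (fun t ht => hA t (Finset.mem_insert_of_mem ht))
    have hset : {x : ∀ i, V i | ∀ t ∈ insert a s, x ∈ A t} = A a ∩ {x | ∀ t ∈ s, x ∈ A t} := by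
      ext x; simp
    rw [hset]
    refine ⟨(hA a (Finset.mem_insert_self _ _)).inter ih1, ?_⟩
    rw [Finset.prod_insert ha]
    have hc := corr m V (A a) {x | ∀ t ∈ s, x ∈ A t} (hA a (Finset.mem_insert_self _ _)) ih1
    calc _ ≤ ((Nat.card (A a) : ℝ) / (Nat.card (∀ i, V i) : ℝ)) *
          ((Nat.card {x | ∀ t ∈ s, x ∈ A t} : ℝ) / (Nat.card (∀ i, V i) : ℝ)) := by
          gcongr
      _ = ((Nat.card (A a) * Nat.card {x | ∀ t ∈ s, x ∈ A t} : ℕ) : ℝ) /
          ((Nat.card (∀ i, V i) : ℝ) * (Nat.card (∀ i, V i) : ℝ)) := by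
          push_cast; rw [div_mul_div_comm]
      _ ≤ ((Nat.card (A a ∩ {x | ∀ t ∈ s, x ∈ A t} : Set (∀ i, V i)) * Nat.card (∀ i, V i) : ℕ) : ℝ)
          / ((Nat.card (∀ i, V i) : ℝ) * (Nat.card (∀ i, V i) : ℝ)) := by
          apply div_le_div_of_nonneg_right _ (by positivity)
          exact_mod_cast hc
      _ = _ := by
          push_cast; rw [mul_div_mul_right _ _ hpos.ne']

lemma card_preimage_mul {G H : Type} [AddGroup G] [AddGroup H] [Finite G] [Finite H]
    (f : G →+ H) (hf : Function.Surjective f) (S : Set H) :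
    Nat.card (f ⁻¹' S) * Nat.card H = Nat.card S * Nat.card G := by
  have := Fintype.ofFinite G
  have := Fintype.ofFinite H
  have hfib : ∀ h : H, Nat.card {g : G // f g = h} = Nat.card {g : G // f g = 0} := by
    intro h
    obtain ⟨g0, hg0⟩ := hf h
    refine Nat.card_congr ⟨fun g => ⟨g.1 - g0, by rw [map_sub, g.2, hg0, sub_self]⟩,
      fun g => ⟨g.1 + g0, by rw [map_add, g.2, hg0, zero_add]⟩, fun g => by simp,
      fun g => by simp⟩
  have hS : ∀ T : Set H, Nat.card (f ⁻¹' T) = Nat.card T * Nat.card {g : G // f g = 0} := by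
    intro T
    have e : (f ⁻¹' T) ≃ Σ t : T, {g : G // f g = t.1} :=
      ⟨fun g => ⟨⟨f g.1, g.2⟩, ⟨g.1, rfl⟩⟩, fun p => ⟨p.2.1, by
        show f p.2.1 ∈ T
        rw [p.2.2]; exact p.1.2⟩, fun g => rfl, fun p => by
          obtain ⟨⟨t, ht⟩, ⟨g, hg⟩⟩ := p
          change f g = t at hg
          subst hg
          rfl⟩
    rw [Nat.card_congr e, Nat.card_sigma]
    simp_rw [hfib]
    rw [Finset.sum_const, Finset.card_univ, ← Nat.card_eq_fintype_card, smul_eq_mul]
  have hG : Nat.card G = Nat.card H * Nat.card {g : G // f g = 0} := by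
    have h := hS Set.univ
    rw [Set.preimage_univ, Nat.card_congr (Equiv.Set.univ G), Nat.card_congr (Equiv.Set.univ H)] at h
    exact h
  rw [hS S, hG]; ring

end Pool.Agent.T6.H67.PAG
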