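import Mathlib
import Pool.Agent.T6.H37.PA.Defs
import Pool.Agent.T6.H67.PAG1

/-!
# The linear bound for large fields implies the linear bound for all finite fields
-/

set_option autoImplicit false

open scoped Classical

namespace Pool.Agent.T6.H67.PAG

open Pool.Agent.T6.H37.PA

section Ext

variable {F : Type} [Field F] {d : ℕ} {n : Fin (d + 2) → ℕ}

/-- The coefficients of a multilinear form. -/
noncomputable def coeff (T : MForm F n) (f : (i : Fin (d + 2)) → Fin (n i)) : F :=
  T (fun i => Pi.single (f i) 1)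

lemma expand (T : MForm F n) (x : (i : Fin (d + 2)) → Fin (n i) → F) :
    T x = ∑ f : (i : Fin (d + 2)) → Fin (n i), coeff T f * ∏ i, x i (f i) := by
  have h1 : x = fun i => ∑ t : Fin (n i), x i t • (Pi.single t 1 : Fin (n i) → F) := by
    funext i
    funext s
    simp [Finset.sum_apply, Pi.single_apply]
  conv_lhs => rw [h1]
  rw [T.map_sum]
  refine Finset.sum_congr rfl fun f _ => ?_
  rw [T.map_smul_univ, coeff, smul_eq_mul, mul_comm]

variable (K : Type) [Field K] [Algebra F K]

/-- Extension of scalars. -/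
noncomputable def ext (T : MForm F n) : MForm K n :=
  ∑ f : (i : Fin (d + 2)) → Fin (n i), algebraMap F K (coeff T f) •
    (MultilinearMap.mkPiAlgebra K (Fin (d + 2)) K).compLinearMap
      (fun i => (LinearMap.proj (f i) : (Fin (n i) → K) →ₗ[K] K))

lemma ext_apply (T : MForm F n) (x : (i : Fin (d + 2)) → Fin (n i) → K) :
    ext K T x = ∑ f : (i : Fin (d + 2)) → Fin (n i), algebraMap F K (coeff T f) *
      ∏ i, x i (f i) := by
  unfold ext
  rw [sum_apply]
  refine Finset.sum_congr rfl fun f _ => ?_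
  simp

lemma ext_map (T : MForm F n) (x : (i : Fin (d + 2)) → Fin (n i) → F) :
    ext K T (fun i t => algebraMap F K (x i t)) = algebraMap F K (T x) := by
  rw [ext_apply, expand, map_sum]
  refine Finset.sum_congr rfl fun f _ => ?_
  rw [map_mul, map_prod]

variable {K} {k : ℕ} (b : Module.Basis (Fin k) F K)

/-- One component in every argument. -/
noncomputable def cd (t : Fin (d + 2) → Fin k) :
    ((i : Fin (d + 2)) → Fin (n i) → K) →+ ((i : Fin (d + 2)) → Fin (n i) → F) where
  toFun x := fun i s => b.repr (x i s) (t i)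
  map_zero' := by funext i s; simp
  map_add' x y := by funext i s; simp

lemma cd_surj (t : Fin (d + 2) → Fin k) :
    Function.Surjective (cd (n := n) b t) := by
  intro y
  refine ⟨fun i s => y i s • b (t i), ?_⟩
  funext i s
  simp [cd]

lemma cd_update (t : Fin (d + 2) → Fin k) (x : (i : Fin (d + 2)) → Fin (n i) → K)
    (i : Fin (d + 2)) (v : Fin (n i) → K) :
    cd b t (Function.update x i v)
      = Function.update (cd b t x) i (fun s => b.repr (v s) (t i)) := by
  funext j
  by_cases h : j = i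
  · subst h
    simp [cd]
  · simp [cd, h]

lemma ext_expand (T : MForm F n) (x : (i : Fin (d + 2)) → Fin (n i) → K) :
    ext K T x = ∑ t : Fin (d + 2) → Fin k, (∏ i, b (t i)) * algebraMap F K (T (cd b t x)) := by
  have h1 : x = fun i => ∑ j : Fin k,
      b j • (fun s => algebraMap F K (b.repr (x i s) j) : Fin (n i) → K) := by
    funext i
    funext s
    rw [Finset.sum_apply]
    conv_lhs => rw [← b.sum_repr (x i s)]
    refine Finset.sum_congr rfl fun j _ => ?_
    rw [Pi.smul_apply, Algebra.smul_def, smul_eq_mul, mul_comm]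
  conv_lhs => rw [h1]
  rw [(ext K T).map_sum]
  refine Finset.sum_congr rfl fun t _ => ?_
  rw [(ext K T).map_smul_univ, smul_eq_mul, ← ext_map]
  rfl

/-- The vanishing set. -/
def Z {F : Type} [Field F] {n : Fin (d + 2) → ℕ} (T : MForm F n) :
    Set ((i : Fin (d + 2)) → Fin (n i) → F) :=
  {x | ∀ y : Fin (n 0) → F, T (Function.update x 0 y) = 0}

lemma secCl_Z (T : MForm F n) : SecCl (Z T) := by
  intro x i a ha c hc y
  have ha' : ∀ y, T (Function.update (Function.update x i a) 0 y) = 0 := ha
  have hc' : ∀ y, T (Function.update (Function.update x i c) 0 y) = 0 := hc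
  by_cases hi : i = 0
  · subst hi
    have := ha' y
    rw [Function.update_idem] at this ⊢
    exact this
  · rw [Function.update_comm hi, T.map_update_sub]
    have h1 := ha' y
    have h2 := hc' y
    rw [Function.update_comm hi] at h1 h2
    rw [h1, h2, sub_zero]

lemma secCl_cd (T : MForm F n) (t : Fin (d + 2) → Fin k) :
    SecCl (cd b t ⁻¹' Z T : Set ((i : Fin (d + 2)) → Fin (n i) → K)) := by
  intro x i a ha c hc
  have ha' : cd b t (Function.update x i a) ∈ Z T := ha
  have hc' : cd b t (Function.update x i c) ∈ Z T := hc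
  show cd b t (Function.update x i (a - c)) ∈ Z T
  rw [cd_update] at ha' hc' ⊢
  have := secCl_Z T (cd b t x) i _ ha' _ hc'
  have e : (fun s => b.repr ((a - c) s) (t i))
      = (fun s => b.repr (a s) (t i)) - (fun s => b.repr (c s) (t i)) := by
    funext s; simp
  rw [e]
  exact this

lemma mem_Z_ext (T : MForm F n) (x : (i : Fin (d + 2)) → Fin (n i) → K)
    (h : ∀ t : Fin (d + 2) → Fin k, cd b t x ∈ Z T) : x ∈ Z (ext K T) := by
  intro y
  rw [ext_expand b]
  refine Finset.sum_eq_zero fun t _ => ?_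
  rw [cd_update, h t, map_zero, mul_zero]

variable [Fintype F] [Fintype K]

include b in
lemma prob_ext (T : MForm F n) :
    ((Nat.card (Z T) : ℝ) / (Nat.card ((i : Fin (d + 2)) → Fin (n i) → F) : ℝ)) ^ (k ^ (d + 2))
      ≤ (Nat.card (Z (ext K T)) : ℝ) / (Nat.card ((i : Fin (d + 2)) → Fin (n i) → K) : ℝ) := by
  have hposK : (0 : ℝ) < (Nat.card ((i : Fin (d + 2)) → Fin (n i) → K) : ℝ) := by
    have : 0 < Nat.card ((i : Fin (d + 2)) → Fin (n i) → K) := Nat.card_pos
    exact_mod_cast this
  have hposF : (0 : ℝ) < (Nat.card ((i : Fin (d + 2)) → Fin (n i) → F) : ℝ) := by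
    have : 0 < Nat.card ((i : Fin (d + 2)) → Fin (n i) → F) := Nat.card_pos
    exact_mod_cast this
  have h1 := corr_family (V := fun i : Fin (d + 2) => Fin (n i) → K)
    (Finset.univ : Finset (Fin (d + 2) → Fin k))
    (fun t => (cd b t ⁻¹' Z T : Set ((i : Fin (d + 2)) → Fin (n i) → K)))
    (fun t _ => secCl_cd b T t)
  have h2 : ∀ t : Fin (d + 2) → Fin k,
      (Nat.card (cd b t ⁻¹' Z T : Set ((i : Fin (d + 2)) → Fin (n i) → K)) : ℝ)
        / (Nat.card ((i : Fin (d + 2)) → Fin (n i) → K) : ℝ)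
      = (Nat.card (Z T) : ℝ) / (Nat.card ((i : Fin (d + 2)) → Fin (n i) → F) : ℝ) := by
    intro t
    have := card_preimage_mul (cd (n := n) b t) (cd_surj b t) (Z T)
    rw [div_eq_div_iff hposK.ne' hposF.ne']
    exact_mod_cast this
  simp_rw [h2] at h1
  rw [Finset.prod_const, Finset.card_univ, Fintype.card_fun, Fintype.card_fin,
    Fintype.card_fin] at h1
  refine h1.trans ?_
  apply div_le_div_of_nonneg_right _ hposK.le
  have : Nat.card {x : (i : Fin (d + 2)) → Fin (n i) → K |
      ∀ t ∈ (Finset.univ : Finset (Fin (d + 2) → Fin k)), x ∈ cd b t ⁻¹' Z T}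
      ≤ Nat.card (Z (ext K T)) := by
    apply Nat.card_mono (Set.toFinite _)
    intro x hx
    exact mem_Z_ext b T x (fun t => hx t (Finset.mem_univ _))
  exact_mod_cast this

lemma prob_pos (T : MForm F n) :
    (0 : ℝ) < (Nat.card (Z T) : ℝ) / (Nat.card ((i : Fin (d + 2)) → Fin (n i) → F) : ℝ) := by
  have hposF : 0 < Nat.card ((i : Fin (d + 2)) → Fin (n i) → F) := Nat.card_pos
  have h0 : (0 : (i : Fin (d + 2)) → Fin (n i) → F) ∈ Z T := by
    intro y
    apply T.map_coord_zero (1 : Fin (d + 2))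
    rw [Function.update_of_ne (by simp)]
    rfl
  have : Nonempty (Z T) := ⟨⟨0, h0⟩⟩
  have hpos : 0 < Nat.card (Z T) := Nat.card_pos
  positivity

lemma prob_le_one (T : MForm F n) :
    (Nat.card (Z T) : ℝ) / (Nat.card ((i : Fin (d + 2)) → Fin (n i) → F) : ℝ) ≤ 1 := by
  apply div_le_one_of_le₀ _ (by positivity)
  have : Nat.card (Z T) ≤ Nat.card ((i : Fin (d + 2)) → Fin (n i) → F) :=
    Nat.card_le_card_of_injective _ Subtype.val_injective
  exact_mod_cast this

lemma arank_eq (T : MForm F n) : arank T = -Real.logb (Fintype.card F : ℝ)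
    ((Nat.card (Z T) : ℝ) / (Nat.card ((i : Fin (d + 2)) → Fin (n i) → F) : ℝ)) := rfl

lemma arank_nonneg (T : MForm F n) : 0 ≤ arank T := by
  rw [arank_eq]
  have h1 : (1 : ℝ) < (Fintype.card F : ℝ) := by
    exact_mod_cast Fintype.one_lt_card
  have := Real.logb_nonpos h1 (prob_pos T).le (prob_le_one T)
  linarith

include b in
lemma arank_ext (T : MForm F n) (hk : 0 < k) :
    arank (ext K T) ≤ (k : ℝ) ^ (d + 2) * arank T := by
  have hcard : Fintype.card K = Fintype.card F ^ k := by
    have := Module.card_fintype b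
    rwa [Fintype.card_fin] at this
  have h1 : (1 : ℝ) < (Fintype.card F : ℝ) := by
    exact_mod_cast Fintype.one_lt_card
  have hK1 : (1 : ℝ) < (Fintype.card K : ℝ) := by
    exact_mod_cast Fintype.one_lt_card
  have h2 := prob_ext (K := K) b T
  have hp := prob_pos T
  have h3 := Real.logb_le_logb_of_le hK1 (pow_pos hp _) h2
  rw [arank_eq (ext K T)]
  have h4 : Real.logb (Fintype.card K : ℝ)
      (((Nat.card (Z T) : ℝ) / (Nat.card ((i : Fin (d + 2)) → Fin (n i) → F) : ℝ)) ^ (k ^ (d + 2)))
      = (k : ℝ) ^ (d + 2) * (-(arank T)) / k := by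
    rw [Real.logb_pow, arank_eq, neg_neg, hcard]
    rw [Real.logb, Real.logb]
    push_cast
    rw [Real.log_pow]
    have hlog : Real.log (Fintype.card F : ℝ) ≠ 0 := (Real.log_pos h1).ne'
    have hk' : (k : ℝ) ≠ 0 := by positivity
    field_simp
  rw [h4] at h3
  have h5 := arank_nonneg T
  have h6 : (k : ℝ) ^ (d + 2) * (arank T) / k ≤ (k : ℝ) ^ (d + 2) * arank T := by
    apply div_le_self (by positivity)
    exact_mod_cast hk
  have h7 : (k : ℝ) ^ (d + 2) * (-(arank T)) / k = -((k : ℝ) ^ (d + 2) * (arank T) / k) := by ring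
  linarith

include b in
omit [Fintype F] [Fintype K] in
lemma prle_descend (T : MForm F n) (r : ℕ) (h : PRLe (ext K T) r) : PRLe T (r * k) := by
  obtain ⟨S, a, c, hS, hT⟩ := h
  obtain ⟨l, hl⟩ := LinearMap.exists_leftInverse_of_injective (Algebra.linearMap F K)
    (LinearMap.ker_eq_bot.2 (algebraMap F K).injective)
  have hl' : ∀ z : F, l (algebraMap F K z) = z := fun z => LinearMap.congr_fun hl z
  refine ⟨fun p => S (finProdFinEquiv.symm p).1,
    fun p => (b.coord (finProdFinEquiv.symm p).2).compMultilinearMap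
      (((a (finProdFinEquiv.symm p).1).restrictScalars F).compLinearMap
        (fun i => (Algebra.linearMap F K).compLeft (Fin (n i.1)))),
    fun p => (l.comp (LinearMap.mulLeft F (b (finProdFinEquiv.symm p).2))).compMultilinearMap
      (((c (finProdFinEquiv.symm p).1).restrictScalars F).compLinearMap
        (fun i => (Algebra.linearMap F K).compLeft (Fin (n i.1)))),
    fun p => hS _, fun x => ?_⟩
  have h1 : T x = l (ext K T (fun i t => algebraMap F K (x i t))) := by
    rw [ext_map, hl']
  set y : (i : Fin (d + 2)) → Fin (n i) → K := fun i t => algebraMap F K (x i t) with hy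
  let G : Fin r × Fin k → F := fun q => b.repr (a q.1 (fun j => y j.1)) q.2 *
    l (b q.2 * c q.1 (fun j => y j.1))
  have h3 : ∑ p : Fin (r * k), G (finProdFinEquiv.symm p) = ∑ q : Fin r × Fin k, G q :=
    Equiv.sum_comp finProdFinEquiv.symm G
  refine Eq.trans ?_ h3.symm
  rw [h1, hT, map_sum, Fintype.sum_prod_type]
  refine Finset.sum_congr rfl fun p _ => ?_
  have h2 : ∀ u v : K, u * v = ∑ j : Fin k, b.repr u j • (b j * v) := by
    intro u v
    conv_lhs => rw [← b.sum_repr u]
    rw [Finset.sum_mul]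
    refine Finset.sum_congr rfl fun j _ => ?_
    rw [smul_mul_assoc]
  rw [h2, map_sum]
  refine Finset.sum_congr rfl fun j _ => ?_
  rw [map_smul, smul_eq_mul]

end Ext

/-- **Module G.** -/
theorem uniform_of_large {d : ℕ} (h : UniformLarge d) : Uniform d := by
  obtain ⟨q₀, C, hC, H⟩ := h
  refine ⟨C * ((q₀ + 1 : ℕ) : ℝ) ^ (d + 2) * ((q₀ + 1 : ℕ) : ℝ), by positivity, ?_⟩
  intro F _ _ n T
  let p := ringChar F
  have : CharP F p := ringChar.charP F
  have : Fact p.Prime := ⟨CharP.char_is_prime F p⟩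
  let K := FiniteField.Extension F p (q₀ + 1)
  have : Fintype K := Fintype.ofFinite K
  have hcard : Fintype.card K = Fintype.card F ^ (q₀ + 1) := by
    rw [← Nat.card_eq_fintype_card, ← Nat.card_eq_fintype_card]
    exact FiniteField.natCard_extension F p (q₀ + 1)
  have h1 : 1 < Fintype.card F := Fintype.one_lt_card
  have hfin : Module.finrank F K = q₀ + 1 := by
    have := Module.card_eq_pow_finrank (K := F) (V := K)
    rw [hcard] at this
    exact (Nat.pow_right_injective h1 this).symm
  let b : Module.Basis (Fin (q₀ + 1)) F K := Module.finBasisOfFinrankEq F K hfin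
  have hq : q₀ ≤ Fintype.card K := by
    rw [hcard]
    calc q₀ ≤ 2 ^ (q₀ + 1) := (Nat.lt_two_pow_self.le.trans (Nat.pow_le_pow_right (by norm_num)
          (Nat.le_succ _)))
      _ ≤ Fintype.card F ^ (q₀ + 1) := Nat.pow_le_pow_left h1 _
  obtain ⟨r, hr, hP⟩ := H K hq n (ext K T)
  refine ⟨r * (q₀ + 1), ?_, prle_descend b T r hP⟩
  have h2 := arank_ext (K := K) b T (Nat.succ_pos _)
  have h3 := arank_nonneg T
  push_cast at h2 ⊢
  calc (r : ℝ) * (q₀ + 1) ≤ (C * arank (ext K T)) * (q₀ + 1) := by gcongr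
    _ ≤ (C * (((q₀ : ℝ) + 1) ^ (d + 2) * arank T)) * (q₀ + 1) := by gcongr
    _ = _ := by ring

end Pool.Agent.T6.H67.PAG
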